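import Pool.Agent.Q163.GC.AS
import Pool.Agent.Y293.SF.SQF

set_option autoImplicit false

/-!
# The diagonal for the Moebius function
-/

namespace Pool.Agent.Q163.GC

open Finset Filter Topology Pool.Agent.Y293.SF

/-- the number of squarefree integers up to `N` -/
noncomputable def QQ (N : ℕ) : ℝ := ∑ n ∈ range N, mu (n + 1) ^ 2

lemma mu_sq (n : ℕ) : mu n ^ 2 = if Squarefree n then 1 else 0 := by
  unfold mu
  split_ifs with h
  · rw [ArithmeticFunction.moebius_apply_of_squarefree h]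
    push_cast
    rw [← pow_mul, mul_comm, pow_mul]
    norm_num
  · rw [ArithmeticFunction.moebius_eq_zero_of_not_squarefree h]
    norm_num

lemma QQ_eq (N : ℕ) : QQ N = ∑' d : ℕ, mu d * ((N / d ^ 2 : ℕ) : ℝ) := by
  classical
  rw [← count_eq]
  unfold QQ
  rw [card_filter]
  push_cast
  rw [range_eq_Ico, sum_Ico_add' (fun n => mu n ^ 2) 0 N 1, zero_add]
  have : Ico 1 (N + 1) = Icc 1 N := by
    ext n
    simp only [mem_Ico, mem_Icc]
    omega
  rw [this]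
  exact sum_congr rfl fun n _ => mu_sq n

lemma tail_le (s : ℕ) (hs : 1 ≤ s) :
    |6 / Real.pi ^ 2 - ∑ d ∈ range (s + 1), mu d * (1 / (d : ℝ) ^ 2)| ≤ 1 / (s : ℝ) := by
  have h1 : Tendsto (fun M => ∑ d ∈ range M, mu d * (1 / (d : ℝ) ^ 2)) atTop
      (𝓝 (6 / Real.pi ^ 2)) := moebius_hasSum.tendsto_sum_nat
  have h2 : Tendsto (fun M => |∑ d ∈ range M, mu d * (1 / (d : ℝ) ^ 2) -
      ∑ d ∈ range (s + 1), mu d * (1 / (d : ℝ) ^ 2)|) atTop
      (𝓝 |6 / Real.pi ^ 2 - ∑ d ∈ range (s + 1), mu d * (1 / (d : ℝ) ^ 2)|) :=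
    (h1.sub_const _).abs
  refine le_of_tendsto h2 ?_
  filter_upwards [eventually_ge_atTop (s + 1)] with M hM
  rw [← sum_range_add_sum_Ico _ hM, add_sub_cancel_left]
  refine (abs_sum_le_sum_abs _ _).trans ?_
  have h3 : ∑ d ∈ Ico (s + 1) M, |mu d * (1 / (d : ℝ) ^ 2)| ≤
      ∑ d ∈ Ioc s M, ((d : ℝ) ^ 2)⁻¹ := by
    calc ∑ d ∈ Ico (s + 1) M, |mu d * (1 / (d : ℝ) ^ 2)| ≤ ∑ d ∈ Ico (s + 1) M, ((d : ℝ) ^ 2)⁻¹ := by
          refine sum_le_sum fun d _ => ?_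
          rw [abs_mul, one_div, abs_of_nonneg (by positivity : (0 : ℝ) ≤ ((d : ℝ) ^ 2)⁻¹)]
          calc |mu d| * ((d : ℝ) ^ 2)⁻¹ ≤ 1 * ((d : ℝ) ^ 2)⁻¹ :=
                mul_le_mul_of_nonneg_right (abs_mu_le d) (by positivity)
            _ = ((d : ℝ) ^ 2)⁻¹ := one_mul _
      _ ≤ ∑ d ∈ Ioc s M, ((d : ℝ) ^ 2)⁻¹ := by
          refine sum_le_sum_of_subset_of_nonneg ?_ fun _ _ _ => by positivity
          intro d hd
          rw [mem_Ico] at hd
          rw [mem_Ioc]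
          omega
  refine h3.trans ((sum_Ioc_inv_sq_le_sub (by omega) (by omega)).trans ?_)
  rw [one_div]
  have : (0 : ℝ) ≤ (M : ℝ)⁻¹ := by positivity
  linarith

theorem QQ_bound (N : ℕ) : |QQ N - 6 / Real.pi ^ 2 * N| ≤ 5 * Real.sqrt N := by
  rcases Nat.eq_zero_or_pos N with rfl | hN
  · unfold QQ
    simp
  set s := Nat.sqrt N with hs
  have hs1 : 1 ≤ s := Nat.sqrt_pos.2 hN
  have hsN : s * s ≤ N := Nat.sqrt_le N
  have hsN' : N < (s + 1) * (s + 1) := Nat.lt_succ_sqrt N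
  have h1 : QQ N = ∑ d ∈ range (s + 1), mu d * ((N / d ^ 2 : ℕ) : ℝ) := by
    rw [QQ_eq, tsum_eq_sum]
    intro d hd
    rw [mem_range, not_lt] at hd
    have : N / d ^ 2 = 0 := Nat.div_eq_of_lt (by nlinarith)
    rw [this]
    simp
  have hNR : (0 : ℝ) < N := by exact_mod_cast hN
  have h2 : |QQ N - N * ∑ d ∈ range (s + 1), mu d * (1 / (d : ℝ) ^ 2)| ≤ s := by
    rw [h1, mul_sum, ← sum_sub_distrib, sum_range_succ']
    have e0 : mu 0 * ((N / 0 ^ 2 : ℕ) : ℝ) - N * (mu 0 * (1 / ((0 : ℕ) : ℝ) ^ 2)) = 0 := by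
      rw [mu_zero]
      ring
    rw [e0, add_zero]
    refine (abs_sum_le_sum_abs _ _).trans ?_
    have h3 : ∀ d ∈ range s, |mu (d + 1) * ((N / (d + 1) ^ 2 : ℕ) : ℝ) -
        N * (mu (d + 1) * (1 / ((d + 1 : ℕ) : ℝ) ^ 2))| ≤ 1 := by
      intro d _
      have h4 : mu (d + 1) * ((N / (d + 1) ^ 2 : ℕ) : ℝ) - N * (mu (d + 1) * (1 / ((d + 1 : ℕ) : ℝ) ^ 2)) =
          mu (d + 1) * (((N / (d + 1) ^ 2 : ℕ) : ℝ) - N / (((d + 1) ^ 2 : ℕ) : ℝ)) := by
        push_cast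
        ring
      rw [h4, abs_mul]
      have h5 : |((N / (d + 1) ^ 2 : ℕ) : ℝ) - (N : ℝ) / (((d + 1) ^ 2 : ℕ) : ℝ)| ≤ 1 := by
        have a1 : ((N / (d + 1) ^ 2 : ℕ) : ℝ) ≤ (N : ℝ) / (((d + 1) ^ 2 : ℕ) : ℝ) := Nat.cast_div_le
        have a2 : (N : ℝ) / (((d + 1) ^ 2 : ℕ) : ℝ) < ((N / (d + 1) ^ 2 : ℕ) : ℝ) + 1 := by
          have hp : (0 : ℝ) < (((d + 1) ^ 2 : ℕ) : ℝ) := by positivity
          rw [div_lt_iff₀ hp]
          have := Nat.lt_div_mul_add (a := N) (b := (d + 1) ^ 2) (by positivity)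
          have h6 : (N : ℝ) < ((N / (d + 1) ^ 2 * (d + 1) ^ 2 + (d + 1) ^ 2 : ℕ) : ℝ) := by
            exact_mod_cast this
          push_cast at h6 ⊢
          linarith
        rw [abs_le]
        constructor <;> linarith
      calc |mu (d + 1)| * |((N / (d + 1) ^ 2 : ℕ) : ℝ) - (N : ℝ) / (((d + 1) ^ 2 : ℕ) : ℝ)|
          ≤ 1 * 1 := mul_le_mul (abs_mu_le _) h5 (abs_nonneg _) zero_le_one
        _ = 1 := one_mul 1
    refine (sum_le_sum h3).trans ?_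
    rw [sum_const, card_range, nsmul_eq_mul, mul_one]
  have h3 : |QQ N - 6 / Real.pi ^ 2 * N| ≤ (s : ℝ) + N * (1 / (s : ℝ)) := by
    have e1 : QQ N - 6 / Real.pi ^ 2 * N =
        (QQ N - N * ∑ d ∈ range (s + 1), mu d * (1 / (d : ℝ) ^ 2)) -
        N * (6 / Real.pi ^ 2 - ∑ d ∈ range (s + 1), mu d * (1 / (d : ℝ) ^ 2)) := by ring
    rw [e1]
    refine (abs_sub _ _).trans (add_le_add h2 ?_)
    rw [abs_mul, abs_of_pos hNR]
    exact mul_le_mul_of_nonneg_left (tail_le s hs1) hNR.le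
  refine h3.trans ?_
  have hsR : (1 : ℝ) ≤ s := by exact_mod_cast hs1
  have h4 : (N : ℝ) * (1 / (s : ℝ)) ≤ 4 * s := by
    rw [mul_one_div, div_le_iff₀ (by linarith)]
    have : (N : ℝ) ≤ (s + 1) * (s + 1) := by exact_mod_cast hsN'.le
    nlinarith
  have h5 : (s : ℝ) ≤ Real.sqrt N := by
    rw [Real.le_sqrt (by positivity) hNR.le]
    calc (s : ℝ) ^ 2 = ((s * s : ℕ) : ℝ) := by push_cast; ring
      _ ≤ N := by exact_mod_cast hsN
  linarith

lemma mu_ne (n : ℕ) (h : mu n ≠ 0) : Squarefree n := by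
  by_contra hc
  apply h
  unfold mu
  rw [ArithmeticFunction.moebius_eq_zero_of_not_squarefree hc]
  norm_num

/-- the diagonal of the Moebius function -/
theorem DD_mu (N h : ℕ) : |DD mu N h - 6 / Real.pi ^ 2 * (h * N)| ≤ 10 * (h * Real.sqrt (N + h)) := by
  have h1 : DD mu N h = ∑ j ∈ range h, (QQ (N + j) - QQ j) := by
    unfold DD
    rw [sum_comm]
    refine sum_congr rfl fun j _ => ?_
    unfold QQ
    rw [add_comm N j, sum_range_add, add_sub_cancel_left]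
    refine sum_congr rfl fun x _ => ?_
    rw [add_comm x j]
  have h2 : DD mu N h - 6 / Real.pi ^ 2 * (h * N) =
      ∑ j ∈ range h, ((QQ (N + j) - 6 / Real.pi ^ 2 * ((N + j : ℕ) : ℝ)) -
        (QQ j - 6 / Real.pi ^ 2 * (j : ℝ))) := by
    rw [h1]
    have : 6 / Real.pi ^ 2 * ((h : ℝ) * N) = ∑ _j ∈ range h, 6 / Real.pi ^ 2 * (N : ℝ) := by
      rw [sum_const, card_range, nsmul_eq_mul]
      ring
    rw [this, ← sum_sub_distrib]
    refine sum_congr rfl fun j _ => ?_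
    push_cast
    ring
  rw [h2]
  refine (abs_sum_le_sum_abs _ _).trans ?_
  have h3 : ∀ j ∈ range h, |(QQ (N + j) - 6 / Real.pi ^ 2 * ((N + j : ℕ) : ℝ)) -
        (QQ j - 6 / Real.pi ^ 2 * (j : ℝ))| ≤ 10 * Real.sqrt (N + h) := by
    intro j hj
    rw [mem_range] at hj
    refine (abs_sub _ _).trans ?_
    have a1 := QQ_bound (N + j)
    have a2 := QQ_bound j
    have a3 : Real.sqrt ((N + j : ℕ) : ℝ) ≤ Real.sqrt (N + h) := by
      refine Real.sqrt_le_sqrt ?_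
      have : (j : ℝ) ≤ h := by exact_mod_cast hj.le
      push_cast
      linarith
    have a4 : Real.sqrt (j : ℝ) ≤ Real.sqrt (N + h) := by
      refine Real.sqrt_le_sqrt ?_
      have : (j : ℝ) ≤ h := by exact_mod_cast hj.le
      have : (0 : ℝ) ≤ N := by positivity
      linarith
    linarith
  refine (sum_le_sum h3).trans ?_
  rw [sum_const, card_range, nsmul_eq_mul]
  exact le_of_eq (by ring)

end Pool.Agent.Q163.GC
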