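import Pool.Agent.Q163.GC.Cnt
import Pool.Agent.Q163.RX.Mgf

set_option autoImplicit false

/-!
# Second moments of quadratic forms in a random completely multiplicative function
-/

namespace Pool.Agent.Q163.GC

open Finset MeasureTheory Pool.Agent.Q163.RP Pool.Agent.Q163.RX

/-- the completely multiplicative function with the signs `ω` at the primes -/
noncomputable def ch (ω : ℕ → Bool) (n : ℕ) : ℝ := mult (sg Set.univ es ω) n

lemma abs_ch (ω : ℕ → Bool) (n : ℕ) : |ch ω n| = 1 := abs_mult _ (abs_sg signs _ ω) n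

lemma ch_sq (ω : ℕ → Bool) (n : ℕ) : ch ω n ^ 2 = 1 := by
  rw [← sq_abs, abs_ch, one_pow]

lemma ch_mul (ω : ℕ → Bool) {m n : ℕ} (hm : m ≠ 0) (hn : n ≠ 0) :
    ch ω (m * n) = ch ω m * ch ω n := mult_mul _ hm hn

lemma meas_ch (n : ℕ) : Measurable fun ω => ch ω n := meas_mult signs _ n

lemma int_ch (n : ℕ) : Integrable (fun ω => ch ω n) cm := integrable_mult signs _ n

lemma isSquare_of_even {n : ℕ} (hn : n ≠ 0) (h : ∀ p, Even (n.factorization p)) : IsSquare n := by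
  refine ⟨∏ p ∈ n.primeFactors, p ^ (n.factorization p / 2), ?_⟩
  rw [← Finset.prod_mul_distrib]
  conv_lhs => rw [← Nat.prod_factorization_pow_eq_self hn]
  rw [Finsupp.prod, Nat.support_factorization]
  refine Finset.prod_congr rfl fun p _ => ?_
  rw [← pow_add]
  congr 1
  obtain ⟨r, hr⟩ := h p
  omega

lemma mean_ch {n : ℕ} (hn : n ≠ 0) (h : ¬ IsSquare n) : ∫ ω, ch ω n ∂cm = 0 := by
  have h1 : ¬ ∀ p, Even (n.factorization p) := fun h2 => h (isSquare_of_even hn h2)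
  push Not at h1
  obtain ⟨q, hq⟩ := h1
  rw [Nat.not_even_iff_odd] at hq
  exact mean_zero signs Set.univ n q (Set.mem_univ q) hq

lemma abs_mean_ch (n : ℕ) : |∫ ω, ch ω n ∂cm| ≤ 1 := by
  refine (abs_integral_le_integral_abs).trans ?_
  simp_rw [abs_ch]
  simp

/-- the second moment is bounded by the number of square products -/
theorem sec {ι : Type*} [DecidableEq ι] (S : Finset ι) (w : ι → ℝ) (hw : ∀ i, |w i| ≤ 1)
    (M : ι → ℕ) (hM : ∀ i ∈ S, M i ≠ 0) (T : Finset (ι × ι))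
    (hT : ∀ i ∈ S, ∀ j ∈ S, w i ≠ 0 → w j ≠ 0 → IsSquare (M i * M j) → (i, j) ∈ T) :
    ∫ ω, (∑ i ∈ S, w i * ch ω (M i)) ^ 2 ∂cm ≤ T.card := by
  classical
  have e1 : ∀ ω, (∑ i ∈ S, w i * ch ω (M i)) ^ 2 =
      ∑ x ∈ S ×ˢ S, w x.1 * w x.2 * ch ω (M x.1 * M x.2) := by
    intro ω
    rw [sq, Finset.sum_mul_sum, ← Finset.sum_product']
    refine Finset.sum_congr rfl fun x hx => ?_
    rw [Finset.mem_product] at hx
    rw [ch_mul ω (hM _ hx.1) (hM _ hx.2)]
    ring
  simp_rw [e1]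
  rw [integral_finsetSum _ fun x _ => (int_ch _).const_mul _]
  simp_rw [integral_const_mul]
  have h1 : ∀ x ∈ S ×ˢ S, w x.1 * w x.2 * ∫ ω, ch ω (M x.1 * M x.2) ∂cm ≤
      if x ∈ T then 1 else 0 := by
    intro x hx
    rw [Finset.mem_product] at hx
    split_ifs with h
    · refine (le_abs_self _).trans ?_
      rw [abs_mul, abs_mul]
      have h3 : |w x.1| * |w x.2| ≤ 1 := by
        have := mul_le_mul (hw x.1) (hw x.2) (abs_nonneg _) zero_le_one
        linarith
      have := mul_le_mul h3 (abs_mean_ch (M x.1 * M x.2)) (abs_nonneg _) zero_le_one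
      linarith
    · by_cases h1 : w x.1 = 0
      · rw [h1, zero_mul, zero_mul]
      by_cases h2 : w x.2 = 0
      · rw [h2, mul_zero, zero_mul]
      rw [mean_ch (mul_ne_zero (hM _ hx.1) (hM _ hx.2))
        fun h3 => h (hT x.1 hx.1 x.2 hx.2 h1 h2 h3), mul_zero]
  refine (Finset.sum_le_sum h1).trans ?_
  rw [Finset.sum_ite_mem, Finset.sum_const, nsmul_eq_mul, mul_one]
  exact_mod_cast Finset.card_le_card Finset.inter_subset_right

/-- the sum over the window of length `h` after `x` -/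
noncomputable def W (f : ℕ → ℝ) (x h : ℕ) : ℝ := ∑ j ∈ range h, f (x + j + 1)

/-- the sum of the squares of the window sums -/
noncomputable def BB (f : ℕ → ℝ) (N h : ℕ) : ℝ := ∑ x ∈ range N, W f x h ^ 2

/-- the diagonal -/
noncomputable def DD (f : ℕ → ℝ) (N h : ℕ) : ℝ := ∑ x ∈ range N, ∑ j ∈ range h, f (x + j + 1) ^ 2

/-- the off-diagonal indices -/
def JJ (N h : ℕ) : Finset (ℕ × ℕ × ℕ) :=
  ((range N) ×ˢ ((range h) ×ˢ (range h))).filter fun t => t.2.1 ≠ t.2.2

lemma mem_JJ {N h : ℕ} {t : ℕ × ℕ × ℕ} :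
    t ∈ JJ N h ↔ t.1 < N ∧ t.2.1 < h ∧ t.2.2 < h ∧ t.2.1 ≠ t.2.2 := by
  unfold JJ
  rw [mem_filter, mem_product, mem_product, mem_range, mem_range, mem_range]
  tauto

lemma BB_sub (f : ℕ → ℝ) (N h : ℕ) : BB f N h - DD f N h =
    ∑ t ∈ JJ N h, f (t.1 + t.2.1 + 1) * f (t.1 + t.2.2 + 1) := by
  unfold BB DD JJ W
  rw [← sum_sub_distrib, sum_filter, sum_product]
  refine sum_congr rfl fun x _ => ?_
  rw [sum_product, sq, sum_mul_sum, ← sum_sub_distrib]
  refine sum_congr rfl fun i hi => ?_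
  rw [← Finset.add_sum_erase _ _ hi, ← Finset.add_sum_erase (range h)
    (fun j => if ((x, i, j) : ℕ × ℕ × ℕ).2.1 ≠ (x, i, j).2.2 then
      f ((x, i, j).1 + (x, i, j).2.1 + 1) * f ((x, i, j).1 + (x, i, j).2.2 + 1) else 0) hi]
  simp only [ne_eq, not_true_eq_false, if_false, zero_add]
  have h1 : ∑ j ∈ (range h).erase i, (if ¬ i = j then f (x + i + 1) * f (x + j + 1) else 0) =
      ∑ j ∈ (range h).erase i, f (x + i + 1) * f (x + j + 1) := by
    refine sum_congr rfl fun j hj => ?_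
    rw [if_pos fun h => (mem_erase.1 hj).1 h.symm]
  rw [h1]
  ring

/-- the sorted pair -/
def ph (t : ℕ × ℕ × ℕ) : ℕ × ℕ :=
  (t.1 + min t.2.1 t.2.2 + 1, t.1 + max t.2.1 t.2.2 + 1)

lemma fibre_ph (N h : ℕ) (q : ℕ × ℕ) : ((JJ N h).filter fun t => ph t = q).card ≤ 2 * h := by
  have h1 : ((JJ N h).filter fun t => ph t = q).card ≤
      ((range h) ×ˢ (Finset.univ : Finset Bool)).card := by
    refine card_le_card_of_injOn (fun t => (t.2.1, decide (t.2.1 < t.2.2))) ?_ ?_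
    · intro t ht
      have := mem_JJ.1 (mem_filter.1 (mem_coe.1 ht)).1
      simp only [mem_coe, mem_product, mem_univ, and_true, mem_range]
      exact this.2.1
    · rintro ⟨x, i, j⟩ ht ⟨x', i', j'⟩ ht' he
      obtain ⟨a1, a2⟩ := mem_filter.1 (mem_coe.1 ht)
      obtain ⟨b1, b2⟩ := mem_filter.1 (mem_coe.1 ht')
      have a3 := mem_JJ.1 a1
      have b3 := mem_JJ.1 b1
      rw [← b2] at a2
      unfold ph at a2
      simp only [Prod.mk.injEq, decide_eq_decide] at a2 he a3 b3 ⊢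
      obtain ⟨c1, c2⟩ := he
      subst c1
      rcases lt_or_gt_of_ne a3.2.2.2 with h1 | h1
      · have h2 := c2.1 h1
        rw [min_eq_left h1.le, max_eq_right h1.le, min_eq_left h2.le, max_eq_right h2.le] at a2
        omega
      · have h2 : j' < i := by
          rcases lt_or_gt_of_ne b3.2.2.2 with h3 | h3
          · have := c2.2 h3
            omega
          · exact h3
        rw [min_eq_right h1.le, max_eq_left h1.le, min_eq_right h2.le, max_eq_left h2.le] at a2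
        omega
  refine h1.trans ?_
  rw [card_product, card_range, card_univ, Fintype.card_bool]
  omega

/-- **Second moment of the off-diagonal part.** -/
theorem mom (a : ℕ → ℝ) (ha : ∀ n, |a n| ≤ 1) (ha0 : ∀ n, a n ≠ 0 → Squarefree n) (N h : ℕ) :
    ∫ ω, (BB (fun n => a n * ch ω n) N h - DD (fun n => a n * ch ω n) N h) ^ 2 ∂cm ≤
      4 * (h : ℝ) ^ 2 * ((prs (N + h) h ×ˢ prs (N + h) h).filter
        fun t => cr (red t.1) = cr (red t.2)).card := by
  classical
  simp_rw [BB_sub]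
  set w : ℕ × ℕ × ℕ → ℝ := fun t => a (t.1 + t.2.1 + 1) * a (t.1 + t.2.2 + 1) with hw
  set M : ℕ × ℕ × ℕ → ℕ := fun t => (t.1 + t.2.1 + 1) * (t.1 + t.2.2 + 1) with hM
  have e1 : ∀ ω, ∑ t ∈ JJ N h, (fun n => a n * ch ω n) (t.1 + t.2.1 + 1) *
      (fun n => a n * ch ω n) (t.1 + t.2.2 + 1) = ∑ t ∈ JJ N h, w t * ch ω (M t) := by
    intro ω
    refine sum_congr rfl fun t _ => ?_
    rw [hM, ch_mul ω (Nat.succ_ne_zero _) (Nat.succ_ne_zero _), hw]
    ring
  simp_rw [e1]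
  set E := (prs (N + h) h ×ˢ prs (N + h) h).filter fun t => cr (red t.1) = cr (red t.2) with hE
  set T := ((JJ N h) ×ˢ (JJ N h)).filter fun s => (ph s.1, ph s.2) ∈ E with hT
  have hfac : ∀ t ∈ JJ N h, w t ≠ 0 → ph t ∈ prs (N + h) h ∧ (ph t).1 * (ph t).2 = M t := by
    intro t ht hwt
    have h1 := mem_JJ.1 ht
    have h2 : Squarefree (t.1 + t.2.1 + 1) := ha0 _ fun h => hwt (by rw [hw]; simp [h])
    have h3 : Squarefree (t.1 + t.2.2 + 1) := ha0 _ fun h => hwt (by rw [hw]; simp [h])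
    rw [mem_prs]
    unfold ph
    dsimp only
    rcases lt_or_gt_of_ne h1.2.2.2 with h4 | h4
    · rw [min_eq_left h4.le, max_eq_right h4.le]
      exact ⟨⟨⟨by omega, by omega⟩, ⟨by omega, by omega⟩, by omega, by omega, h2, h3⟩, rfl⟩
    · rw [min_eq_right h4.le, max_eq_left h4.le]
      exact ⟨⟨⟨by omega, by omega⟩, ⟨by omega, by omega⟩, by omega, by omega, h3, h2⟩,
        by rw [hM]; ring⟩
  have hwb : ∀ t, |w t| ≤ 1 := by
    intro t
    rw [hw, abs_mul]
    have := mul_le_mul (ha (t.1 + t.2.1 + 1)) (ha (t.1 + t.2.2 + 1)) (abs_nonneg _) zero_le_one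
    linarith
  have h1 := sec (JJ N h) w hwb M (fun t _ => mul_ne_zero (Nat.succ_ne_zero _) (Nat.succ_ne_zero _))
    T (fun i hi j hj hwi hwj hsq => by
      obtain ⟨a1, a2⟩ := hfac i hi hwi
      obtain ⟨b1, b2⟩ := hfac j hj hwj
      rw [hT, mem_filter, mem_product, hE, mem_filter, mem_product]
      refine ⟨⟨hi, hj⟩, ⟨a1, b1⟩, ?_⟩
      have c1 := mem_prs.1 a1
      have c2 := mem_prs.1 b1
      exact core_eq c1.2.2.2.2.1 c1.2.2.2.2.2 c2.2.2.2.2.1 c2.2.2.2.2.2 (by rw [a2, b2]; exact hsq))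
  refine h1.trans ?_
  have h2 : T.card ≤ (2 * h) * (2 * h) * E.card := by
    refine card_le_mul_card_image_of_maps_to (f := fun s => (ph s.1, ph s.2)) ?_ _ ?_
    · intro s hs
      exact (mem_filter.1 hs).2
    · intro b _
      calc (T.filter fun s => (ph s.1, ph s.2) = b).card
          ≤ (((JJ N h).filter fun t => ph t = b.1) ×ˢ ((JJ N h).filter fun t => ph t = b.2)).card := by
            refine card_le_card fun s hs => ?_
            rw [mem_filter, hT, mem_filter, mem_product] at hs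
            rw [mem_product, mem_filter, mem_filter]
            exact ⟨⟨hs.1.1.1, by rw [← hs.2]⟩, ⟨hs.1.1.2, by rw [← hs.2]⟩⟩
        _ ≤ (2 * h) * (2 * h) := by
            rw [card_product]
            exact Nat.mul_le_mul (fibre_ph N h b.1) (fibre_ph N h b.2)
  calc (T.card : ℝ) ≤ (((2 * h) * (2 * h) * E.card : ℕ) : ℝ) := by exact_mod_cast h2
    _ = 4 * (h : ℝ) ^ 2 * E.card := by
        push_cast
        ring

lemma meas_W (a : ℕ → ℝ) (x h : ℕ) : Measurable fun ω => W (fun n => a n * ch ω n) x h := by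
  unfold W
  exact Finset.measurable_fun_sum _ fun j _ => (meas_ch _).const_mul _

lemma meas_BB (a : ℕ → ℝ) (N h : ℕ) : Measurable fun ω => BB (fun n => a n * ch ω n) N h := by
  unfold BB
  exact Finset.measurable_fun_sum _ fun x _ => (meas_W a x h).pow_const 2

lemma DD_eq (a : ℕ → ℝ) (ω : ℕ → Bool) (N h : ℕ) : DD (fun n => a n * ch ω n) N h = DD a N h := by
  unfold DD
  refine sum_congr rfl fun x _ => sum_congr rfl fun j _ => ?_
  rw [mul_pow, ch_sq, mul_one]

lemma abs_W_le (f : ℕ → ℝ) (hf : ∀ n, |f n| ≤ 1) (x h : ℕ) : |W f x h| ≤ h := by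
  unfold W
  refine (abs_sum_le_sum_abs _ _).trans ((sum_le_sum fun j _ => hf _).trans ?_)
  rw [sum_const, card_range, nsmul_eq_mul, mul_one]

lemma abs_f (a : ℕ → ℝ) (ha : ∀ n, |a n| ≤ 1) (ω : ℕ → Bool) (n : ℕ) : |a n * ch ω n| ≤ 1 := by
  rw [abs_mul, abs_ch, mul_one]
  exact ha n

/-- Chebyshev's inequality -/
theorem cheb (a : ℕ → ℝ) (ha : ∀ n, |a n| ≤ 1) (ha0 : ∀ n, a n ≠ 0 → Squarefree n) (N h : ℕ)
    (l : ℝ) (hl : 0 < l) :
    cm.real {ω | l ≤ |BB (fun n => a n * ch ω n) N h - DD a N h|} ≤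
      (4 * (h : ℝ) ^ 2 * ((prs (N + h) h ×ˢ prs (N + h) h).filter
        fun t => cr (red t.1) = cr (red t.2)).card) / l ^ 2 := by
  have h1 := mom a ha ha0 N h
  simp_rw [DD_eq] at h1
  set F : (ℕ → Bool) → ℝ := fun ω => BB (fun n => a n * ch ω n) N h - DD a N h with hF
  have hb : ∀ ω, |F ω| ≤ N * (h : ℝ) ^ 2 + |DD a N h| := by
    intro ω
    rw [hF]
    refine (abs_sub _ _).trans (add_le_add_left ?_ _)
    unfold BB
    rw [abs_of_nonneg (sum_nonneg fun x _ => sq_nonneg _)]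
    refine (sum_le_sum fun x _ => ?_).trans (le_of_eq (by
      rw [sum_const, card_range, nsmul_eq_mul] : ∑ _x ∈ range N, (h : ℝ) ^ 2 = N * (h : ℝ) ^ 2))
    rw [← sq_abs]
    exact pow_le_pow_left₀ (abs_nonneg _) (abs_W_le _ (abs_f a ha ω) x h) 2
  have hm : Measurable F := (meas_BB a N h).sub_const _
  have hint : Integrable (fun ω => F ω ^ 2) cm := by
    refine Integrable.of_bound (hm.pow_const 2).aestronglyMeasurable
      ((N * (h : ℝ) ^ 2 + |DD a N h|) ^ 2) (Filter.Eventually.of_forall fun ω => ?_)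
    rw [Real.norm_eq_abs, abs_pow]
    exact pow_le_pow_left₀ (abs_nonneg _) (hb ω) 2
  have h2 := mul_meas_ge_le_integral_of_nonneg (μ := cm) (f := fun ω => F ω ^ 2)
    (Filter.Eventually.of_forall fun ω => sq_nonneg _) hint (l ^ 2)
  have h3 : {ω | l ≤ |F ω|} = {ω | l ^ 2 ≤ F ω ^ 2} := by
    ext ω
    simp only [Set.mem_ofPred_eq]
    rw [← sq_abs (F ω)]
    exact ⟨fun h => pow_le_pow_left₀ hl.le h 2, fun h => le_of_sq_le_sq h (abs_nonneg _)⟩
  rw [h3, le_div_iff₀ (by positivity), mul_comm]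
  exact h2.trans h1

end Pool.Agent.Q163.GC
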