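import Pool.Agent.Q163.GC.Sqf

set_option autoImplicit false

/-!
# Windows with real centre and real length
-/

namespace Pool.Agent.Q163.GC

open Finset Filter Topology MeasureTheory

/-- the sum over the integers in a window of length `H` centred at `x` -/
noncomputable def Mf (f : ℕ → ℝ) (x H : ℝ) : ℝ :=
  ∑ n ∈ (range (⌈x + H⌉₊ + 1)).filter (fun n : ℕ => |(n : ℝ) - x| < H / 2), f n

lemma Mf_eq (f : ℕ → ℝ) (a H : ℝ) (m k : ℕ) (h1 : (m : ℝ) < a) (h2 : a < m + 1)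
    (h3 : (m : ℝ) + k < a + H) (h4 : a + H ≤ m + k + 1) :
    Mf f (a + H / 2) H = W f m k := by
  unfold Mf W
  have e1 : ∑ j ∈ range k, f (m + j + 1) = ∑ n ∈ Ico (m + 1) (m + 1 + k), f n := by
    rw [sum_Ico_eq_sum_range, Nat.add_sub_cancel_left]
    refine sum_congr rfl fun j _ => ?_
    congr 1
    omega
  rw [e1]
  refine sum_congr ?_ fun _ _ => rfl
  ext n
  rw [mem_filter, mem_range, mem_Ico, abs_lt]
  constructor
  · rintro ⟨-, b1, b2⟩
    have c1 : a < n := by linarith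
    have c2 : (n : ℝ) < a + H := by linarith
    constructor
    · by_contra hc
      have : (n : ℝ) ≤ m := by exact_mod_cast (by omega : n ≤ m)
      linarith
    · by_contra hc
      have : (m : ℝ) + k + 1 ≤ n := by exact_mod_cast (by omega : m + k + 1 ≤ n)
      linarith
  · rintro ⟨b1, b2⟩
    have c1 : (m : ℝ) + 1 ≤ n := by exact_mod_cast b1
    have c2 : (n : ℝ) ≤ m + k := by exact_mod_cast (by omega : n ≤ m + k)
    refine ⟨?_, by linarith, by linarith⟩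
    have c3 : (n : ℝ) < (⌈a + H / 2 + H⌉₊ : ℝ) := by
      refine lt_of_lt_of_le ?_ (Nat.le_ceil _)
      linarith
    have : n < ⌈a + H / 2 + H⌉₊ := by exact_mod_cast c3
    omega

lemma piece (c : ℝ) (G : ℝ → ℝ) (p q : ℝ) (hpq : p ≤ q) (h : ∀ x, p < x → x < q → G x = c) :
    IntervalIntegrable G volume p q ∧ ∫ x in p..q, G x = (q - p) * c := by
  have hae : (fun _ : ℝ => c) =ᵐ[volume.restrict (Set.uIoc p q)] G := by
    rw [Set.uIoc_of_le hpq, ← Measure.restrict_congr_set Ioo_ae_eq_Ioc]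
    exact (ae_restrict_mem measurableSet_Ioo).mono fun x hx => (h x hx.1 hx.2).symm
  constructor
  · exact (intervalIntegrable_const (c := c)).congr_ae hae
  · rw [← intervalIntegral.integral_congr_ae_restrict hae, intervalIntegral.integral_const,
      smul_eq_mul]

/-- one unit interval -/
lemma unit_int (f : ℕ → ℝ) (g : ℝ → ℝ) (H : ℝ) (hH : 0 ≤ H) (m : ℕ) :
    IntervalIntegrable (fun a => g (Mf f (a + H / 2) H)) volume (m : ℝ) ((m + 1 : ℕ) : ℝ) ∧
    ∫ a in (m : ℝ)..((m + 1 : ℕ) : ℝ), g (Mf f (a + H / 2) H) =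
      (1 - (H - ⌊H⌋₊)) * g (W f m ⌊H⌋₊) + (H - ⌊H⌋₊) * g (W f m (⌊H⌋₊ + 1)) := by
  set k := ⌊H⌋₊ with hk
  have k1 : (k : ℝ) ≤ H := Nat.floor_le hH
  have k2 : H < k + 1 := Nat.lt_floor_add_one H
  push_cast
  obtain ⟨a1, a2⟩ := piece (g (W f m k)) (fun a => g (Mf f (a + H / 2) H)) m (m + 1 - (H - k))
    (by linarith) (fun x h1 h2 => by
      show g (Mf f (x + H / 2) H) = _
      rw [Mf_eq f x H m k h1 (by linarith) (by linarith) (by linarith)])
  obtain ⟨b1, b2⟩ := piece (g (W f m (k + 1))) (fun a => g (Mf f (a + H / 2) H)) (m + 1 - (H - k))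
    (m + 1) (by linarith) (fun x h1 h2 => by
      show g (Mf f (x + H / 2) H) = _
      rw [Mf_eq f x H m (k + 1) (by linarith) h2 (by push_cast; linarith)
        (by push_cast; linarith)])
  refine ⟨a1.trans b1, ?_⟩
  rw [← intervalIntegral.integral_add_adjacent_intervals a1 b1, a2, b2]
  ring

/-- integer intervals -/
lemma int_int (f : ℕ → ℝ) (g : ℝ → ℝ) (H : ℝ) (hH : 0 ≤ H) (m1 m2 : ℕ) (h12 : m1 ≤ m2) :
    IntervalIntegrable (fun a => g (Mf f (a + H / 2) H)) volume (m1 : ℝ) (m2 : ℝ) ∧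
    ∫ a in (m1 : ℝ)..(m2 : ℝ), g (Mf f (a + H / 2) H) =
      (1 - (H - ⌊H⌋₊)) * ∑ m ∈ Ico m1 m2, g (W f m ⌊H⌋₊) +
        (H - ⌊H⌋₊) * ∑ m ∈ Ico m1 m2, g (W f m (⌊H⌋₊ + 1)) := by
  have h1 : ∀ m : ℕ, m ∈ Set.Ico m1 m2 →
      IntervalIntegrable (fun a => g (Mf f (a + H / 2) H)) volume (m : ℝ) ((m + 1 : ℕ) : ℝ) :=
    fun m _ => (unit_int f g H hH m).1
  constructor
  · exact IntervalIntegrable.trans_iterate_Ico (a := fun n : ℕ => (n : ℝ)) h12 h1
  · rw [← intervalIntegral.sum_integral_adjacent_intervals_Ico (a := fun n : ℕ => (n : ℝ)) h12 h1,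
      mul_sum, mul_sum, ← sum_add_distrib]
    exact sum_congr rfl fun m _ => (unit_int f g H hH m).2

/-- two-sided comparison of the integral with sums over integer windows -/
lemma sandwich (f : ℕ → ℝ) (g : ℝ → ℝ) (hg : ∀ x, 0 ≤ g x) (H A B : ℝ) (hH : 0 ≤ H) (hA : 0 ≤ A)
    (hAB : A + 2 ≤ B) :
    ∫ a in ((⌊A⌋₊ + 1 : ℕ) : ℝ)..((⌊B⌋₊ : ℕ) : ℝ), g (Mf f (a + H / 2) H) ≤
        ∫ x in (A + H / 2)..(B + H / 2), g (Mf f x H) ∧
      ∫ x in (A + H / 2)..(B + H / 2), g (Mf f x H) ≤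
        ∫ a in ((⌊A⌋₊ : ℕ) : ℝ)..((⌊B⌋₊ + 1 : ℕ) : ℝ), g (Mf f (a + H / 2) H) := by
  have hB : 0 ≤ B := by linarith
  have a1 : (⌊A⌋₊ : ℝ) ≤ A := Nat.floor_le hA
  have a2 : A < ⌊A⌋₊ + 1 := Nat.lt_floor_add_one A
  have b1 : (⌊B⌋₊ : ℝ) ≤ B := Nat.floor_le hB
  have b2 : B < ⌊B⌋₊ + 1 := Nat.lt_floor_add_one B
  have hAB' : ⌊A⌋₊ + 1 ≤ ⌊B⌋₊ := by
    rw [Nat.le_floor_iff hB]
    push_cast
    linarith
  have e1 : ∫ x in (A + H / 2)..(B + H / 2), g (Mf f x H) =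
      ∫ a in A..B, g (Mf f (a + H / 2) H) :=
    (intervalIntegral.integral_comp_add_right (fun x => g (Mf f x H)) (H / 2)).symm
  rw [e1]
  have hint : IntervalIntegrable (fun a => g (Mf f (a + H / 2) H)) volume ((⌊A⌋₊ : ℕ) : ℝ)
      ((⌊B⌋₊ + 1 : ℕ) : ℝ) := (int_int f g H hH _ _ (by omega)).1
  have hint2 : IntervalIntegrable (fun a => g (Mf f (a + H / 2) H)) volume A B := by
    refine hint.mono_set ?_
    rw [Set.uIcc_of_le (by linarith), Set.uIcc_of_le (by push_cast; linarith)]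
    exact Set.Icc_subset_Icc a1 (by push_cast; linarith)
  constructor
  · refine intervalIntegral.integral_mono_interval (by push_cast; linarith) ?_ b1
      (Eventually.of_forall fun x => hg _) hint2
    exact_mod_cast hAB'
  · refine intervalIntegral.integral_mono_interval a1 (by linarith) (by push_cast; linarith)
      (Eventually.of_forall fun x => hg _) hint

end Pool.Agent.Q163.GC
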