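import Pool.Agent.Q163.GC.Int
import Pool.Agent.Q163.RX.Gen

set_option autoImplicit false

/-!
# The almost sure statement for integer windows
-/

namespace Pool.Agent.Q163.GC

open Finset Filter MeasureTheory Pool.Agent.Q163.RX

theorem grid_ae (a : ℕ → ℝ) (ha : ∀ n, |a n| ≤ 1) (ha0 : ∀ n, a n ≠ 0 → Squarefree n) (A : ℕ)
    (hA : 13 ≤ A) : ∀ᵐ ω ∂cm, ∀ᶠ j in atTop, Grid (fun n => a n * ch ω n) A j := by
  classical
  have hA0 : (0 : ℝ) < A := by
    have : 0 < A := by omega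
    exact_mod_cast this
  have hA1 : (13 : ℝ) ≤ A := by exact_mod_cast hA
  obtain ⟨C, hC, hcnt⟩ := count (1 / (A : ℝ)) (by positivity)
  set T : ℕ → Finset (ℕ × ℕ) := fun j => (range (A * j + 1)) ×ˢ (Icc 1 (2 * j)) with hT
  set E : ℕ → ℕ × ℕ → Set (ℕ → Bool) := fun j t =>
    {ω | t.2 * 2 ^ t.1 * j ^ 12 ≤ j ^ A ∧ ((t.2 * 2 ^ t.1 : ℕ) : ℝ) * (j : ℝ) ^ A / j ≤
      |BB (fun n => a n * ch ω n) (j ^ A) (t.2 * 2 ^ t.1) - DD a (j ^ A) (t.2 * 2 ^ t.1)|} with hE
  have hb : ∀ᶠ j : ℕ in atTop, ∀ t ∈ T j, cm.real (E j t) ≤ 2 / ((T j).card * (j : ℝ) ^ 2) := by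
    obtain ⟨j0, hj0⟩ := exists_nat_ge (800 * C * (A : ℝ) ^ 3)
    filter_upwards [eventually_ge_atTop (max j0 1)] with j hj t ht
    have hj1 : 1 ≤ j := le_of_max_le_right hj
    have hjR : (1 : ℝ) ≤ j := by exact_mod_cast hj1
    have hjp : (0 : ℝ) < j := by linarith
    have hjbig : 800 * C * (A : ℝ) ^ 3 ≤ j := hj0.trans (by exact_mod_cast le_of_max_le_left hj)
    rw [hT, mem_product, mem_range, mem_Icc] at ht
    by_cases hc : t.2 * 2 ^ t.1 * j ^ 12 ≤ j ^ A
    swap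
    · have : E j t = ∅ := by
        rw [hE]
        ext ω
        simp only [Set.mem_ofPred_eq, Set.mem_empty_iff_false, iff_false, not_and]
        exact fun h => absurd h hc
      rw [this, measureReal_empty]
      positivity
    set h : ℕ := t.2 * 2 ^ t.1 with hh
    have hh1 : 1 ≤ h := Nat.mul_pos ht.2.1 (by positivity)
    have hhR : (0 : ℝ) < h := by exact_mod_cast hh1
    have hl : (0 : ℝ) < (h : ℝ) * (j : ℝ) ^ A / j := by positivity
    have h1 : cm.real (E j t) ≤ cm.real {ω | (h : ℝ) * (j : ℝ) ^ A / j ≤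
        |BB (fun n => a n * ch ω n) (j ^ A) h - DD a (j ^ A) h|} :=
      measureReal_mono (fun ω hω => hω.2)
    refine h1.trans ((cheb a ha ha0 (j ^ A) h _ hl).trans ?_)
    have hhA : (h : ℝ) * (j : ℝ) ^ 12 ≤ (j : ℝ) ^ A := by exact_mod_cast hc
    have hhA1 : (h : ℝ) ≤ (j : ℝ) ^ A := by
      have : (1 : ℝ) ≤ (j : ℝ) ^ 12 := one_le_pow₀ hjR
      nlinarith
    set Y : ℕ := j ^ A + h with hY
    have hYR : (Y : ℝ) ≤ 2 * (j : ℝ) ^ A := by
      rw [hY]
      push_cast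
      linarith
    have hY1 : (1 : ℝ) ≤ Y := by
      have : 1 ≤ Y := by omega
      exact_mod_cast this
    have hy1 : (Y : ℝ) ^ (1 / (A : ℝ)) ≤ 2 * j := by
      calc (Y : ℝ) ^ (1 / (A : ℝ)) ≤ ((2 * (j : ℝ)) ^ (A : ℝ)) ^ (1 / (A : ℝ)) := by
            refine Real.rpow_le_rpow (by positivity) ?_ (by positivity)
            rw [Real.rpow_natCast, mul_pow]
            refine hYR.trans (mul_le_mul_of_nonneg_right ?_ (by positivity))
            calc (2 : ℝ) = 2 ^ 1 := (pow_one _).symm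
              _ ≤ 2 ^ A := pow_le_pow_right₀ (by norm_num) (by omega)
        _ = 2 * j := by
            rw [← Real.rpow_mul (by positivity), mul_one_div_cancel hA0.ne', Real.rpow_one]
    have hy2 : (1 + Real.log Y) ^ 2 ≤ 25 * (A : ℝ) ^ 2 * j := by
      have h2 : Real.log Y ≤ (Y : ℝ) ^ (1 / (2 * (A : ℝ))) / (1 / (2 * (A : ℝ))) :=
        Real.log_le_rpow_div (by positivity) (by positivity)
      have h3 : (Y : ℝ) ^ (1 / (2 * (A : ℝ))) ≤ Real.sqrt (2 * j) := by
        have : (Y : ℝ) ^ (1 / (2 * (A : ℝ))) = Real.sqrt ((Y : ℝ) ^ (1 / (A : ℝ))) := by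
          rw [Real.sqrt_eq_rpow, ← Real.rpow_mul (by positivity)]
          congr 1
          field_simp
        rw [this]
        exact Real.sqrt_le_sqrt hy1
      have h4 : Real.sqrt (2 * j) ≤ 2 * Real.sqrt j := by
        rw [Real.sqrt_mul (by norm_num)]
        refine mul_le_mul_of_nonneg_right ?_ (Real.sqrt_nonneg _)
        rw [Real.sqrt_le_left (by norm_num)]
        norm_num
      have h5 : 1 ≤ Real.sqrt j := Real.one_le_sqrt.2 hjR
      have h6 : Real.log Y ≤ 4 * A * Real.sqrt j := by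
        calc Real.log Y ≤ (Y : ℝ) ^ (1 / (2 * (A : ℝ))) / (1 / (2 * (A : ℝ))) := h2
          _ = 2 * A * (Y : ℝ) ^ (1 / (2 * (A : ℝ))) := by
              rw [div_div_eq_mul_div, div_one]
              ring
          _ ≤ 2 * A * (2 * Real.sqrt j) :=
              mul_le_mul_of_nonneg_left (h3.trans h4) (by positivity)
          _ = 4 * A * Real.sqrt j := by ring
      have h7 : 0 ≤ 1 + Real.log Y := by
        have := Real.log_nonneg hY1
        linarith
      have h8 : 1 + Real.log Y ≤ 5 * A * Real.sqrt j := by nlinarith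
      calc (1 + Real.log Y) ^ 2 ≤ (5 * A * Real.sqrt j) ^ 2 := pow_le_pow_left₀ h7 h8 2
        _ = 25 * (A : ℝ) ^ 2 * j := by
            rw [mul_pow, Real.sq_sqrt hjp.le]
            ring
    have hcn := hcnt Y h
    set c : ℝ := (((prs Y h ×ˢ prs Y h).filter fun t => cr (red t.1) = cr (red t.2)).card : ℝ) with hcdef
    have hc1 : c ≤ 100 * C * (A : ℝ) ^ 2 * (j : ℝ) ^ 2 * ((j : ℝ) ^ A * h) := by
      calc c ≤ C * (Y : ℝ) ^ (1 / (A : ℝ)) * (Y * h * (1 + Real.log Y) ^ 2) := hcn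
        _ ≤ C * (2 * j) * ((2 * (j : ℝ) ^ A) * h * (25 * (A : ℝ) ^ 2 * j)) := by
            refine mul_le_mul (mul_le_mul_of_nonneg_left hy1 (by linarith)) ?_ (by positivity)
              (by positivity)
            exact mul_le_mul (mul_le_mul_of_nonneg_right hYR hhR.le) hy2 (by positivity)
              (by positivity)
        _ = 100 * C * (A : ℝ) ^ 2 * (j : ℝ) ^ 2 * ((j : ℝ) ^ A * h) := by ring
    have hcard : ((T j).card : ℝ) ≤ 4 * A * (j : ℝ) ^ 2 := by
      rw [hT, card_product, card_range, Nat.card_Icc]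
      rw [Nat.add_sub_cancel]
      push_cast
      have h9 : (1 : ℝ) ≤ A * j := by nlinarith
      calc ((A : ℝ) * j + 1) * (2 * j) ≤ (2 * (A * j)) * (2 * j) :=
            mul_le_mul_of_nonneg_right (by linarith) (by positivity)
        _ = 4 * A * (j : ℝ) ^ 2 := by ring
    have hcard0 : (0 : ℝ) < (T j).card := by
      have : 0 < (T j).card := card_pos.2 ⟨t, by rw [hT, mem_product, mem_range, mem_Icc]; exact ht⟩
      exact_mod_cast this
    rw [div_le_div_iff₀ (by positivity) (by positivity)]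
    calc 4 * (h : ℝ) ^ 2 * c * ((T j).card * (j : ℝ) ^ 2)
        ≤ 4 * (h : ℝ) ^ 2 * (100 * C * (A : ℝ) ^ 2 * (j : ℝ) ^ 2 * ((j : ℝ) ^ A * h)) *
            ((4 * A * (j : ℝ) ^ 2) * (j : ℝ) ^ 2) :=
          mul_le_mul (mul_le_mul_of_nonneg_left hc1 (by positivity))
            (mul_le_mul_of_nonneg_right hcard (by positivity)) (by positivity) (by positivity)
      _ = 2 * (h : ℝ) ^ 2 * (j : ℝ) ^ A * (h * ((j : ℝ) ^ 5 * (j * (800 * C * (A : ℝ) ^ 3)))) := by
          ring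
      _ ≤ 2 * (h : ℝ) ^ 2 * (j : ℝ) ^ A * (h * ((j : ℝ) ^ 5 * (j * j))) := by
          refine mul_le_mul_of_nonneg_left ?_ (by positivity)
          refine mul_le_mul_of_nonneg_left ?_ hhR.le
          exact mul_le_mul_of_nonneg_left (mul_le_mul_of_nonneg_left hjbig hjp.le) (by positivity)
      _ ≤ 2 * (h : ℝ) ^ 2 * (j : ℝ) ^ A * ((j : ℝ) ^ A / (j : ℝ) ^ 2) := by
          refine mul_le_mul_of_nonneg_left ?_ (by positivity)
          rw [le_div_iff₀ (by positivity)]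
          refine le_trans ?_ hhA
          have : (j : ℝ) ^ 9 ≤ (j : ℝ) ^ 12 := pow_le_pow_right₀ hjR (by norm_num)
          calc (h : ℝ) * ((j : ℝ) ^ 5 * (j * j)) * (j : ℝ) ^ 2 = h * (j : ℝ) ^ 9 := by ring
            _ ≤ h * (j : ℝ) ^ 12 := mul_le_mul_of_nonneg_left this hhR.le
      _ = 2 * ((h : ℝ) * (j : ℝ) ^ A / j) ^ 2 := by
          field_simp
  filter_upwards [bcf T E hb] with ω hω
  filter_upwards [hω, eventually_ge_atTop 1] with j hj hj1
  intro i u hu1 hu2 hc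
  rw [DD_eq]
  have hi : i < A * j + 1 := by
    have h1 : 2 ^ i ≤ (2 ^ j) ^ A := by
      calc 2 ^ i = 1 * 2 ^ i * 1 := by ring
        _ ≤ u * 2 ^ i * j ^ 12 :=
            Nat.mul_le_mul (Nat.mul_le_mul_right _ hu1) (Nat.one_le_pow _ _ hj1)
        _ ≤ j ^ A := hc
        _ ≤ (2 ^ j) ^ A := Nat.pow_le_pow_left (Nat.lt_two_pow_self).le _
    rw [← pow_mul] at h1
    have := (Nat.pow_le_pow_iff_right (by norm_num : 1 < 2)).1 h1
    rw [mul_comm j A] at this
    omega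
  have h2 := hj (i, u) (by
    rw [hT, mem_product, mem_range, mem_Icc]
    exact ⟨hi, hu1, hu2⟩)
  simp only [hE, Set.mem_ofPred_eq, not_and, not_le] at h2
  exact (h2 hc).le

/-- **Variance of the window sums of `a n` times almost every completely multiplicative function.** -/
theorem main (a : ℕ → ℝ) (ha : ∀ n, |a n| ≤ 1) (ha0 : ∀ n, a n ≠ 0 → Squarefree n) :
    ∀ᵐ ω ∂cm, ∀ ε : ℝ, 0 < ε → ∃ c C : ℝ, 0 < c ∧ 0 ≤ C ∧ ∀ N h : ℕ, 1 ≤ N →
      (h : ℝ) ≤ (N : ℝ) ^ (1 - ε) →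
      |BB (fun n => a n * ch ω n) N h - DD a N h| ≤ C * (h * N) * (N : ℝ) ^ (-c) := by
  have h1 : ∀ᵐ ω ∂cm, ∀ A : ℕ, 13 ≤ A → ∀ᶠ j in atTop, Grid (fun n => a n * ch ω n) A j := by
    rw [ae_all_iff]
    intro A
    by_cases hA : 13 ≤ A
    · filter_upwards [grid_ae a ha ha0 A hA] with ω hω _
      exact hω
    · exact Eventually.of_forall fun ω h => absurd h hA
  filter_upwards [h1] with ω hω ε hε
  obtain ⟨A0, hA0⟩ := exists_nat_ge (15 / ε)
  set A := max A0 13 with hA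
  have hA13 : 13 ≤ A := le_max_right _ _
  have hAR : 15 / ε ≤ A := hA0.trans (by exact_mod_cast le_max_left A0 13)
  have hAp : (0 : ℝ) < A := by
    have : 0 < A := by omega
    exact_mod_cast this
  obtain ⟨C, hC, h2⟩ := interp (abs_f a ha ω) A hA13 (hω A hA13)
  refine ⟨1 / (2 * (A : ℝ)), C, by positivity, hC, fun N h hN hh => ?_⟩
  have hNR : (1 : ℝ) ≤ N := by exact_mod_cast hN
  have h3 := h2 N h hN (by
    have e1 : (N : ℝ) ^ ((15 : ℝ) / A) ≤ (N : ℝ) ^ ε := by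
      refine Real.rpow_le_rpow_of_exponent_le hNR ?_
      rw [div_le_iff₀ hAp]
      rw [div_le_iff₀ hε] at hAR
      linarith
    calc (h : ℝ) * (N : ℝ) ^ ((15 : ℝ) / A) ≤ (N : ℝ) ^ (1 - ε) * (N : ℝ) ^ ε :=
          mul_le_mul hh e1 (by positivity) (by positivity)
      _ = N := by
          rw [← Real.rpow_add (by linarith)]
          norm_num)
  rw [DD_eq] at h3
  exact h3

end Pool.Agent.Q163.GC
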