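import Pool.Agent.Q163.GC.Real

set_option autoImplicit false

/-!
# The variance in real windows
-/

namespace Pool.Agent.Q163.GC

open Finset Filter Topology MeasureTheory

/-- from integer windows to real windows -/
theorem var_real (f : ℕ → ℝ) (κ : ℝ) (hκ0 : 0 ≤ κ) (hκ1 : κ ≤ 1)
    (hmain : ∀ ε : ℝ, 0 < ε → ∃ c C : ℝ, 0 < c ∧ 0 ≤ C ∧ ∀ N h : ℕ, 1 ≤ N →
      (h : ℝ) ≤ (N : ℝ) ^ (1 - ε) → |BB f N h - κ * (h * N)| ≤ C * (h * N) * (N : ℝ) ^ (-c)) :
    ∀ ε : ℝ, 0 < ε → ∃ c : ℝ, 0 < c ∧ ∃ X0 : ℝ, 1 ≤ X0 ∧ ∀ X H : ℝ, X0 ≤ X → 1 ≤ H →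
      H ≤ X ^ (1 - ε) → |1 / X * (∫ x in X..2 * X, Mf f x H ^ 2) - κ * H| ≤ H * X ^ (-c) := by
  intro ε hε
  obtain ⟨c0, C, hc0, hC, hN⟩ := hmain (ε / 2) (by positivity)
  set c := min c0 1 with hc
  have hcp : 0 < c := lt_min hc0 one_pos
  have hc1 : c ≤ 1 := min_le_right _ _
  have ev1 : ∀ᶠ X : ℝ in atTop, 8 ≤ X ^ (ε / 2) :=
    (tendsto_rpow_atTop (by positivity)).eventually_ge_atTop 8
  have ev2 : ∀ᶠ X : ℝ in atTop, 48 * C + 4 ≤ X ^ (c / 2) :=
    (tendsto_rpow_atTop (by positivity)).eventually_ge_atTop _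
  obtain ⟨X1, hX1⟩ := eventually_atTop.1 ((ev1.and ev2).and (eventually_ge_atTop (8 : ℝ)))
  refine ⟨c / 2, by positivity, max X1 8, by
    have : (8 : ℝ) ≤ max X1 8 := le_max_right _ _
    linarith, fun X H hX hH1 hH => ?_⟩
  obtain ⟨⟨hX2, hX3⟩, hX8⟩ := hX1 X (le_of_max_le_left hX)
  have hX0 : 0 < X := by linarith
  have hXe : X ^ (1 - ε) * X ^ ε = X := by
    rw [← Real.rpow_add hX0]
    norm_num
  have hXe2 : X ^ ε = X ^ (ε / 2) * X ^ (ε / 2) := by
    rw [← Real.rpow_add hX0]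
    congr 1
    ring
  have hHX : H ≤ X / 64 := by
    rw [le_div_iff₀ (by norm_num)]
    have h1 : (64 : ℝ) ≤ X ^ ε := by
      rw [hXe2]
      nlinarith
    calc H * 64 ≤ X ^ (1 - ε) * X ^ ε := mul_le_mul hH h1 (by norm_num) (by positivity)
      _ = X := hXe
  have hH0 : 0 < H := by linarith
  set A := X - H / 2 with hA
  set B := 2 * X - H / 2 with hB
  have hA0 : 0 ≤ A := by rw [hA]; linarith
  have hB0 : 0 ≤ B := by rw [hB]; linarith
  obtain ⟨s1, s2⟩ := sandwich f (fun x => x ^ 2) (fun x => sq_nonneg x) H A B hH0.le hA0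
    (by rw [hA, hB]; linarith)
  have eA : A + H / 2 = X := by rw [hA]; ring
  have eB : B + H / 2 = 2 * X := by rw [hB]; ring
  rw [eA, eB] at s1 s2
  set m1 := ⌊A⌋₊ with hm1
  set m2 := ⌊B⌋₊ with hm2
  have a1 : (m1 : ℝ) ≤ A := Nat.floor_le hA0
  have a2 : A < m1 + 1 := Nat.lt_floor_add_one A
  have b1 : (m2 : ℝ) ≤ B := Nat.floor_le hB0
  have b2 : B < m2 + 1 := Nat.lt_floor_add_one B
  have h12 : m1 + 1 ≤ m2 := by
    have : (m1 : ℝ) + 1 ≤ m2 := by rw [hA] at a1; rw [hB] at b2; linarith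
    exact_mod_cast this
  set k := ⌊H⌋₊ with hk
  have k1 : (k : ℝ) ≤ H := Nat.floor_le hH0.le
  have k2 : H < k + 1 := Nat.lt_floor_add_one H
  set R : ℝ := C * ((2 * H) * (3 * X)) * (4 * X ^ (-c)) with hR
  have key : ∀ m k' : ℕ, X / 4 ≤ m → (m : ℝ) ≤ 3 * X → (k' : ℝ) ≤ 2 * H →
      |BB f m k' - κ * (k' * m)| ≤ R := by
    intro m k' q1 q2 q3
    have hm1 : (1 : ℝ) ≤ m := by linarith
    have hm0 : (0 : ℝ) < m := by linarith
    have hcond : (k' : ℝ) ≤ (m : ℝ) ^ (1 - ε / 2) := by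
      have t1 : (m : ℝ) ^ (1 - ε / 2) * (m : ℝ) ^ (ε / 2) = m := by
        rw [← Real.rpow_add hm0]
        norm_num
      have t2 : (m : ℝ) ^ (ε / 2) ≤ (m : ℝ) ^ (ε / 2) := le_rfl
      rcases le_or_gt (1 - ε / 2) 0 with h0 | h0
      · exfalso
        have h3 : X ^ (1 - ε) ≤ X ^ (-(ε / 2)) :=
          Real.rpow_le_rpow_of_exponent_le (by linarith) (by linarith)
        have h4 : X ^ (-(ε / 2)) < 1 := Real.rpow_lt_one_of_one_lt_of_neg (by linarith) (by linarith)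
        linarith
      · have h3 : (X / 4) ^ (1 - ε / 2) ≤ (m : ℝ) ^ (1 - ε / 2) :=
          Real.rpow_le_rpow (by positivity) q1 h0.le
        refine le_trans ?_ h3
        rw [Real.div_rpow hX0.le (by norm_num), le_div_iff₀ (by positivity)]
        have h4 : (4 : ℝ) ^ (1 - ε / 2) ≤ 4 := by
          calc (4 : ℝ) ^ (1 - ε / 2) ≤ (4 : ℝ) ^ (1 : ℝ) :=
                Real.rpow_le_rpow_of_exponent_le (by norm_num) (by linarith)
            _ = 4 := Real.rpow_one _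
        have h5 : X ^ (1 - ε / 2) = X ^ (1 - ε) * X ^ (ε / 2) := by
          rw [← Real.rpow_add hX0]
          congr 1
          ring
        rw [h5]
        calc (k' : ℝ) * (4 : ℝ) ^ (1 - ε / 2) ≤ (2 * H) * 4 :=
              mul_le_mul q3 h4 (by positivity) (by positivity)
          _ = H * 8 := by ring
          _ ≤ X ^ (1 - ε) * X ^ (ε / 2) := mul_le_mul hH hX2 (by norm_num) (by positivity)
    have h1 := hN m k' (by exact_mod_cast hm1) hcond
    refine h1.trans ?_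
    have h2 : (m : ℝ) ^ (-c0) ≤ 4 * X ^ (-c) := by
      calc (m : ℝ) ^ (-c0) ≤ (m : ℝ) ^ (-c) :=
            Real.rpow_le_rpow_of_exponent_le hm1 (neg_le_neg (min_le_left _ _))
        _ ≤ (X / 4) ^ (-c) := Real.rpow_le_rpow_of_nonpos (by positivity) q1 (by linarith)
        _ = 4 ^ c * X ^ (-c) := by
            rw [Real.div_rpow hX0.le (by norm_num), Real.rpow_neg (by norm_num : (0 : ℝ) ≤ 4)]
            field_simp
        _ ≤ 4 * X ^ (-c) := by
            refine mul_le_mul_of_nonneg_right ?_ (by positivity)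
            calc (4 : ℝ) ^ c ≤ (4 : ℝ) ^ (1 : ℝ) :=
                  Real.rpow_le_rpow_of_exponent_le (by norm_num) hc1
              _ = 4 := Real.rpow_one _
    rw [hR]
    refine mul_le_mul (mul_le_mul_of_nonneg_left (mul_le_mul q3 q2 hm0.le (by positivity)) hC) h2
      (by positivity) (by positivity)
  have hkR : (k : ℝ) ≤ 2 * H := by linarith
  have hkR' : ((k + 1 : ℕ) : ℝ) ≤ 2 * H := by push_cast; linarith
  have i1 : X / 4 ≤ (m1 : ℝ) := by rw [hA] at a2; linarith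
  have i2 : (m2 : ℝ) + 1 ≤ 3 * X := by rw [hB] at b1; linarith
  have i3 : (m1 : ℝ) + 1 ≤ m2 := by exact_mod_cast h12
  have comp : ∀ n1 n2 : ℕ, n1 ≤ n2 → X / 4 ≤ (n1 : ℝ) → (n2 : ℝ) ≤ 3 * X →
      |(n2 : ℝ) - n1 - X| ≤ 2 →
      |(∫ a in (n1 : ℝ)..(n2 : ℝ), Mf f (a + H / 2) H ^ 2) - κ * (H * X)| ≤ 2 * R + 2 * H := by
    intro n1 n2 h0 q1 q2 q3
    have h0R : (n1 : ℝ) ≤ n2 := by exact_mod_cast h0
    have e1 := (int_int f (fun x => x ^ 2) H hH0.le n1 n2 h0).2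
    have e2 : ∀ k' : ℕ, ∑ m ∈ Ico n1 n2, W f m k' ^ 2 = BB f n2 k' - BB f n1 k' := by
      intro k'
      unfold BB
      exact sum_Ico_eq_sub _ h0
    simp only [e2] at e1
    rw [e1, ← hk]
    have u1 := key n1 k q1 (by linarith) hkR
    have u2 := key n2 k (by linarith) q2 hkR
    have u3 := key n1 (k + 1) q1 (by linarith) hkR'
    have u4 := key n2 (k + 1) (by linarith) q2 hkR'
    push_cast at u3 u4
    have t0 : 0 ≤ H - k := by linarith
    have t1 : 0 ≤ 1 - (H - k) := by linarith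
    have e3 : (1 - (H - k)) * (BB f n2 k - BB f n1 k) + (H - k) * (BB f n2 (k + 1) - BB f n1 (k + 1)) -
        κ * (H * X) =
        (1 - (H - k)) * ((BB f n2 k - κ * (k * n2)) - (BB f n1 k - κ * (k * n1))) +
        (H - k) * ((BB f n2 (k + 1) - κ * ((k + 1) * n2)) - (BB f n1 (k + 1) - κ * ((k + 1) * n1))) +
        κ * H * ((n2 : ℝ) - n1 - X) := by ring
    rw [e3]
    have v1 : |(BB f n2 k - κ * (k * n2)) - (BB f n1 k - κ * (k * n1))| ≤ 2 * R :=
      (abs_sub _ _).trans (by linarith)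
    have v2 : |(BB f n2 (k + 1) - κ * ((k + 1) * n2)) - (BB f n1 (k + 1) - κ * ((k + 1) * n1))| ≤
        2 * R := (abs_sub _ _).trans (by linarith)
    refine (abs_add_three _ _ _).trans ?_
    rw [abs_mul, abs_mul, abs_mul, abs_of_nonneg t0, abs_of_nonneg t1,
      abs_of_nonneg (by positivity : 0 ≤ κ * H)]
    have w1 := mul_le_mul_of_nonneg_left v1 t1
    have w2 := mul_le_mul_of_nonneg_left v2 t0
    have w3 : κ * H * |(n2 : ℝ) - n1 - X| ≤ (1 * H) * 2 :=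
      mul_le_mul (mul_le_mul_of_nonneg_right hκ1 hH0.le) q3 (abs_nonneg _) (by positivity)
    nlinarith
  have c1 := comp (m1 + 1) m2 h12 (by push_cast; linarith) (by linarith) (by
    push_cast
    rw [hA] at a1 a2
    rw [hB] at b1 b2
    rw [abs_le]
    constructor <;> linarith)
  have c2 := comp m1 (m2 + 1) (by omega) (by linarith) (by push_cast; linarith) (by
    push_cast
    rw [hA] at a1 a2
    rw [hB] at b1 b2
    rw [abs_le]
    constructor <;> linarith)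
  have hfin : |(∫ x in X..2 * X, Mf f x H ^ 2) - κ * (H * X)| ≤ 2 * R + 2 * H := by
    rw [abs_le] at c1 c2 ⊢
    constructor
    · linarith [c1.1, s1]
    · linarith [c2.2, s2]
  have e5 : 1 / X * (∫ x in X..2 * X, Mf f x H ^ 2) - κ * H =
      1 / X * ((∫ x in X..2 * X, Mf f x H ^ 2) - κ * (H * X)) := by
    field_simp
  rw [e5, abs_mul, abs_of_pos (by positivity : 0 < 1 / X)]
  have hXc : X ^ (-c) * X ^ (c / 2) = X ^ (-(c / 2)) := by
    rw [← Real.rpow_add hX0]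
    congr 1
    ring
  have hX1c : 1 / X ≤ X ^ (-c) := by
    rw [one_div, ← Real.rpow_neg_one]
    exact Real.rpow_le_rpow_of_exponent_le (by linarith) (by linarith)
  calc 1 / X * |(∫ x in X..2 * X, Mf f x H ^ 2) - κ * (H * X)| ≤ 1 / X * (2 * R + 2 * H) :=
        mul_le_mul_of_nonneg_left hfin (by positivity)
    _ = H * ((48 * C) * X ^ (-c) + 2 * (1 / X)) := by
        rw [hR]
        field_simp
        ring
    _ ≤ H * ((48 * C) * X ^ (-c) + 4 * X ^ (-c)) := by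
        refine mul_le_mul_of_nonneg_left ?_ hH0.le
        have : 0 < X ^ (-c) := by positivity
        linarith
    _ = H * (X ^ (-c) * (48 * C + 4)) := by ring
    _ ≤ H * (X ^ (-c) * X ^ (c / 2)) :=
        mul_le_mul_of_nonneg_left (mul_le_mul_of_nonneg_left hX3 (by positivity)) hH0.le
    _ = H * X ^ (-(c / 2)) := by rw [hXc]

end Pool.Agent.Q163.GC
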