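import Mathlib

set_option autoImplicit false

/-!
# Counting pairs of pairs of squarefree numbers with the same squarefree core
-/

namespace Pool.Agent.Q163.GC

open Finset

/-- a double sum over classes is bounded by the sum of the squares of the fibres -/
lemma card_rel {α β γ : Type*} [DecidableEq α] [DecidableEq β] [DecidableEq γ] (S : Finset α)
    (ρ : α → β) (κ : β → γ) (K : ℝ)
    (hK : ∀ p ∈ S.image ρ, (((S.image ρ).filter fun p' => κ p' = κ p).card : ℝ) ≤ K) :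
    (((S ×ˢ S).filter fun t => κ (ρ t.1) = κ (ρ t.2)).card : ℝ) ≤
      K * ∑ p ∈ S.image ρ, ((S.filter fun q => ρ q = p).card : ℝ) ^ 2 := by
  set A := S.image ρ with hA
  set r : β → ℝ := fun p => ((S.filter fun q => ρ q = p).card : ℝ) with hr
  have h1 : (((S ×ˢ S).filter fun t => κ (ρ t.1) = κ (ρ t.2)).card : ℝ) =
      ∑ p ∈ A, ∑ p' ∈ A, (if κ p = κ p' then r p * r p' else 0) := by
    rw [card_filter]
    push_cast
    rw [sum_product]
    have e1 : ∀ q ∈ S, ∑ q' ∈ S, (if κ (ρ q) = κ (ρ q') then (1 : ℝ) else 0) =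
        ∑ p' ∈ A, r p' * (if κ (ρ q) = κ p' then (1 : ℝ) else 0) := by
      intro q _
      rw [sum_comp (fun p' => (if κ (ρ q) = κ p' then (1 : ℝ) else 0)) ρ]
      exact sum_congr rfl fun p' _ => by rw [nsmul_eq_mul]
    rw [sum_congr rfl e1,
      sum_comp (fun p => ∑ p' ∈ A, r p' * (if κ p = κ p' then (1 : ℝ) else 0)) ρ]
    refine sum_congr rfl fun p _ => ?_
    rw [nsmul_eq_mul, mul_sum]
    refine sum_congr rfl fun p' _ => ?_
    split_ifs <;> simp [hr]
  rw [h1]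
  have h2 : ∀ p ∈ A, ∀ p' ∈ A, (if κ p = κ p' then r p * r p' else 0) ≤
      (if κ p = κ p' then r p ^ 2 / 2 else 0) + (if κ p = κ p' then r p' ^ 2 / 2 else 0) := by
    intro p _ p' _
    split_ifs
    · nlinarith [sq_nonneg (r p - r p')]
    · simp
  refine (sum_le_sum fun p hp => sum_le_sum fun p' hp' => h2 p hp p' hp').trans ?_
  simp only [sum_add_distrib]
  have h3 : ∑ p ∈ A, ∑ p' ∈ A, (if κ p = κ p' then r p ^ 2 / 2 else 0) ≤
      K * ∑ p ∈ A, r p ^ 2 / 2 := by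
    rw [mul_sum]
    refine sum_le_sum fun p hp => ?_
    rw [← sum_filter, sum_const, nsmul_eq_mul]
    refine mul_le_mul_of_nonneg_right ?_ (by positivity)
    refine le_trans (le_of_eq ?_) (hK p hp)
    congr 2
    ext p'
    simp only [mem_filter, eq_comm]
  have h4 : ∑ p ∈ A, ∑ p' ∈ A, (if κ p = κ p' then r p' ^ 2 / 2 else 0) ≤
      K * ∑ p ∈ A, r p ^ 2 / 2 := by
    rw [sum_comm]
    refine le_trans (le_of_eq ?_) h3
    refine sum_congr rfl fun p _ => sum_congr rfl fun p' _ => ?_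
    simp only [eq_comm]
  have h5 : ∑ p ∈ A, r p ^ 2 / 2 = (∑ p ∈ A, r p ^ 2) / 2 := by rw [sum_div]
  rw [h5] at h3 h4
  linarith

/-- divisor bound for squarefree numbers -/
theorem tau_sqf (δ : ℝ) (hδ : 0 < δ) : ∃ C : ℝ, 1 ≤ C ∧ ∀ n : ℕ, Squarefree n →
    (n.divisors.card : ℝ) ≤ C * (n : ℝ) ^ δ := by
  set T : ℕ := ⌈(2 : ℝ) ^ (1 / δ)⌉₊ with hT
  refine ⟨2 ^ T, one_le_pow₀ (by norm_num), fun n hn => ?_⟩
  have hn0 : n ≠ 0 := hn.ne_zero
  have h1 : (n.divisors.card : ℝ) = ∏ p ∈ n.primeFactors, (2 : ℝ) := by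
    rw [Nat.card_divisors hn0]
    push_cast
    refine prod_congr rfl fun p hp => ?_
    have hp' := Nat.mem_primeFactors.1 hp
    have : n.factorization p = 1 := by
      have a1 := hn.natFactorization_le_one p
      have a2 := hp'.1.factorization_pos_of_dvd hn0 hp'.2.1
      omega
    rw [this]
    norm_num
  have h2 : ∏ p ∈ n.primeFactors, (2 : ℝ) ≤
      ∏ p ∈ n.primeFactors, ((if p < T then 2 else 1) * (p : ℝ) ^ δ) := by
    refine prod_le_prod (fun _ _ => by norm_num) fun p hp => ?_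
    have hp' := (Nat.mem_primeFactors.1 hp).1
    split_ifs with h
    · have : (1 : ℝ) ≤ (p : ℝ) ^ δ := Real.one_le_rpow (by exact_mod_cast hp'.one_le) hδ.le
      linarith
    · rw [one_mul]
      have h3 : (2 : ℝ) ^ (1 / δ) ≤ p := (Nat.le_ceil _).trans (by exact_mod_cast not_lt.1 h)
      calc (2 : ℝ) = ((2 : ℝ) ^ (1 / δ)) ^ δ := by
            rw [← Real.rpow_mul (by norm_num), one_div_mul_cancel hδ.ne', Real.rpow_one]
        _ ≤ (p : ℝ) ^ δ := Real.rpow_le_rpow (by positivity) h3 hδ.le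
  rw [h1]
  refine h2.trans ?_
  rw [prod_mul_distrib]
  have h4 : ∏ p ∈ n.primeFactors, (p : ℝ) ^ δ = (n : ℝ) ^ δ := by
    rw [Real.finsetProd_rpow _ _ (fun p _ => by positivity)]
    congr 1
    rw [← Nat.cast_prod, Nat.prod_primeFactors_of_squarefree hn]
  rw [h4]
  refine mul_le_mul_of_nonneg_right ?_ (by positivity)
  calc ∏ p ∈ n.primeFactors, (if p < T then (2 : ℝ) else 1)
      = ∏ p ∈ n.primeFactors.filter (· < T), (2 : ℝ) := by rw [prod_filter]
    _ = 2 ^ (n.primeFactors.filter (· < T)).card := by rw [prod_const]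
    _ ≤ 2 ^ T := by
        refine pow_le_pow_right₀ (by norm_num) ?_
        refine (card_le_card (t := range T) ?_).trans (by rw [card_range])
        intro p hp
        rw [mem_filter] at hp
        exact mem_range.2 hp.2

/-- the reduced pair -/
def red (q : ℕ × ℕ) : ℕ × ℕ := (q.1 / q.1.gcd q.2, q.2 / q.1.gcd q.2)

/-- the squarefree core of the product -/
def cr (p : ℕ × ℕ) : ℕ := p.1 * p.2

lemma red_mul {q : ℕ × ℕ} : q.1.gcd q.2 * (red q).1 = q.1 ∧ q.1.gcd q.2 * (red q).2 = q.2 :=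
  ⟨Nat.mul_div_cancel' (Nat.gcd_dvd_left _ _), Nat.mul_div_cancel' (Nat.gcd_dvd_right _ _)⟩

lemma core_sqf {q : ℕ × ℕ} (h1 : Squarefree q.1) (h2 : Squarefree q.2) :
    Squarefree (cr (red q)) := by
  have h0 : 0 < q.1.gcd q.2 := Nat.gcd_pos_of_pos_left _ (Nat.pos_of_ne_zero h1.ne_zero)
  unfold cr
  rw [Nat.squarefree_mul]
  · exact ⟨h1.squarefree_of_dvd (Dvd.intro_left _ red_mul.1),
      h2.squarefree_of_dvd (Dvd.intro_left _ red_mul.2)⟩
  · exact Nat.coprime_div_gcd_div_gcd h0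

lemma sqf_eq_of_sq {c c' : ℕ} (hc : Squarefree c) (hc' : Squarefree c') (h : IsSquare (c * c')) :
    c = c' := by
  obtain ⟨s, hs⟩ := h
  have hs0 : s ≠ 0 := by
    rintro rfl
    rw [mul_zero] at hs
    exact (mul_ne_zero hc.ne_zero hc'.ne_zero) hs
  refine Nat.eq_of_factorization_eq hc.ne_zero hc'.ne_zero fun p => ?_
  have h1 := hc.natFactorization_le_one p
  have h2 := hc'.natFactorization_le_one p
  have h3 : c.factorization p + c'.factorization p = s.factorization p + s.factorization p := by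
    have := congrArg (fun n : ℕ => n.factorization p) hs
    simp only [Nat.factorization_mul hc.ne_zero hc'.ne_zero, Nat.factorization_mul hs0 hs0,
      Finsupp.coe_add, Pi.add_apply] at this
    exact this
  omega

/-- if the product of four squarefree numbers is a square, the cores of the two halves agree -/
lemma core_eq {q q' : ℕ × ℕ} (h1 : Squarefree q.1) (h2 : Squarefree q.2) (h3 : Squarefree q'.1)
    (h4 : Squarefree q'.2) (h : IsSquare ((q.1 * q.2) * (q'.1 * q'.2))) :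
    cr (red q) = cr (red q') := by
  refine sqf_eq_of_sq (core_sqf h1 h2) (core_sqf h3 h4) ?_
  obtain ⟨s, hs⟩ := h
  set g := q.1.gcd q.2 with hg
  set g' := q'.1.gcd q'.2 with hg'
  have e1 : q.1 * q.2 = g ^ 2 * cr (red q) := by
    calc q.1 * q.2 = (g * (red q).1) * (g * (red q).2) := by
          rw [hg, (red_mul (q := q)).1, (red_mul (q := q)).2]
      _ = g ^ 2 * cr (red q) := by
          unfold cr
          ring
  have e2 : q'.1 * q'.2 = g' ^ 2 * cr (red q') := by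
    calc q'.1 * q'.2 = (g' * (red q').1) * (g' * (red q').2) := by
          rw [hg', (red_mul (q := q')).1, (red_mul (q := q')).2]
      _ = g' ^ 2 * cr (red q') := by
          unfold cr
          ring
  have hg0 : g ≠ 0 := (Nat.gcd_pos_of_pos_left _ (Nat.pos_of_ne_zero h1.ne_zero)).ne'
  have hg0' : g' ≠ 0 := (Nat.gcd_pos_of_pos_left _ (Nat.pos_of_ne_zero h3.ne_zero)).ne'
  rw [e1, e2] at hs
  have h5 : (g * g') ^ 2 * (cr (red q) * cr (red q')) = s ^ 2 := by
    calc (g * g') ^ 2 * (cr (red q) * cr (red q')) =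
        g ^ 2 * cr (red q) * (g' ^ 2 * cr (red q')) := by ring
      _ = s ^ 2 := by rw [hs]; ring
  have h6 : (g * g') ∣ s := (Nat.pow_dvd_pow_iff two_ne_zero).1 (Dvd.intro _ h5)
  obtain ⟨t, ht⟩ := h6
  refine ⟨t, ?_⟩
  have h7 : (g * g') ^ 2 * (cr (red q) * cr (red q')) = (g * g') ^ 2 * (t * t) := by
    rw [h5, ht]
    ring
  exact Nat.eq_of_mul_eq_mul_left (pow_pos (Nat.pos_of_ne_zero (mul_ne_zero hg0 hg0')) 2) h7

/-- pairs of squarefree numbers at distance less than `h` -/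
def prs (Y h : ℕ) : Finset (ℕ × ℕ) :=
  ((Icc 1 Y) ×ˢ (Icc 1 Y)).filter fun q => q.1 < q.2 ∧ q.2 < q.1 + h ∧ Squarefree q.1 ∧
    Squarefree q.2

lemma mem_prs {Y h : ℕ} {q : ℕ × ℕ} : q ∈ prs Y h ↔ (1 ≤ q.1 ∧ q.1 ≤ Y) ∧ (1 ≤ q.2 ∧ q.2 ≤ Y) ∧
    q.1 < q.2 ∧ q.2 < q.1 + h ∧ Squarefree q.1 ∧ Squarefree q.2 := by
  unfold prs
  rw [mem_filter, mem_product, mem_Icc, mem_Icc, and_assoc]

lemma red_facts {Y h : ℕ} {q : ℕ × ℕ} (hq : q ∈ prs Y h) :
    1 ≤ (red q).1 ∧ (red q).1 < (red q).2 ∧ (red q).2 ≤ Y ∧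
      q.1.gcd q.2 * (red q).2 ≤ Y ∧ q.1.gcd q.2 * ((red q).2 - (red q).1) < h ∧ 1 ≤ q.1.gcd q.2 := by
  rw [mem_prs] at hq
  obtain ⟨⟨h1, h2⟩, ⟨h3, h4⟩, h5, h6, h7, h8⟩ := hq
  obtain ⟨e1, e2⟩ := red_mul (q := q)
  have hg : 1 ≤ q.1.gcd q.2 := Nat.gcd_pos_of_pos_left _ h1
  have a1 : 1 ≤ (red q).1 := by
    rcases Nat.eq_zero_or_pos (red q).1 with h | h
    · rw [h, mul_zero] at e1
      omega
    · exact h
  have a2 : (red q).1 < (red q).2 := by
    by_contra hc
    have := Nat.mul_le_mul_left (q.1.gcd q.2) (not_lt.1 hc)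
    omega
  have a3 : q.1.gcd q.2 * (red q).2 ≤ Y := by omega
  refine ⟨a1, a2, ?_, a3, ?_, hg⟩
  · calc (red q).2 = 1 * (red q).2 := (one_mul _).symm
      _ ≤ q.1.gcd q.2 * (red q).2 := Nat.mul_le_mul_right _ hg
      _ ≤ Y := a3
  · rw [Nat.mul_sub, e1, e2]
    omega

/-- the fibres of the reduction -/
lemma fibre_le (Y h : ℕ) (p : ℕ × ℕ) (hp : p ∈ (prs Y h).image red) :
    (((prs Y h).filter fun q => red q = p).card : ℝ) ≤ (Y : ℝ) / p.2 ∧
    (((prs Y h).filter fun q => red q = p).card : ℝ) ≤ (h : ℝ) / (p.2 - p.1 : ℕ) := by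
  obtain ⟨q0, hq0, rfl⟩ := mem_image.1 hp
  obtain ⟨b1, b2, b3, -, -, -⟩ := red_facts hq0
  set p := red q0 with hpdef
  have hinj : ∀ S : Finset ℕ, (∀ q ∈ (prs Y h).filter (fun q => red q = p), q.1.gcd q.2 ∈ S) →
      ((prs Y h).filter fun q => red q = p).card ≤ S.card := by
    intro S hS
    refine card_le_card_of_injOn (fun q => q.1.gcd q.2) hS ?_
    intro q hq q' hq' he
    simp only [coe_filter, Set.mem_ofPred_eq] at hq hq'
    obtain ⟨e1, e2⟩ := red_mul (q := q)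
    obtain ⟨e3, e4⟩ := red_mul (q := q')
    simp only at he
    rw [hq.2] at e1 e2
    rw [hq'.2] at e3 e4
    rw [he] at e1 e2
    exact Prod.ext (e1.symm.trans e3) (e2.symm.trans e4)
  constructor
  · have h1 : ((prs Y h).filter fun q => red q = p).card ≤ Y / p.2 := by
      refine (hinj (Icc 1 (Y / p.2)) ?_).trans (by rw [Nat.card_Icc, Nat.add_sub_cancel])
      intro q hq
      rw [mem_filter] at hq
      obtain ⟨-, -, -, c4, -, c6⟩ := red_facts hq.1
      rw [hq.2] at c4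
      exact mem_Icc.2 ⟨c6, (Nat.le_div_iff_mul_le (by omega)).2 c4⟩
    calc (((prs Y h).filter fun q => red q = p).card : ℝ) ≤ ((Y / p.2 : ℕ) : ℝ) := by
          exact_mod_cast h1
      _ ≤ (Y : ℝ) / p.2 := Nat.cast_div_le
  · have h1 : ((prs Y h).filter fun q => red q = p).card ≤ h / (p.2 - p.1) := by
      refine (hinj (Icc 1 (h / (p.2 - p.1))) ?_).trans (by rw [Nat.card_Icc, Nat.add_sub_cancel])
      intro q hq
      rw [mem_filter] at hq
      obtain ⟨-, -, -, -, c5, c6⟩ := red_facts hq.1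
      rw [hq.2] at c5
      exact mem_Icc.2 ⟨c6, (Nat.le_div_iff_mul_le (by omega)).2 c5.le⟩
    calc (((prs Y h).filter fun q => red q = p).card : ℝ) ≤ ((h / (p.2 - p.1) : ℕ) : ℝ) := by
          exact_mod_cast h1
      _ ≤ (h : ℝ) / (p.2 - p.1 : ℕ) := Nat.cast_div_le

lemma harm (Y : ℕ) : ∑ d ∈ Icc 1 Y, (1 : ℝ) / d ≤ 1 + Real.log Y := by
  have := harmonic_le_one_add_log Y
  rw [harmonic_eq_sum_Icc] at this
  push_cast at this
  simpa only [one_div] using this

/-- sum of the squares of the fibres -/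
lemma sum_fibre (Y h : ℕ) : ∑ p ∈ (prs Y h).image red,
    ((((prs Y h).filter fun q => red q = p).card : ℝ)) ^ 2 ≤ Y * h * (1 + Real.log Y) ^ 2 := by
  have h1 : ∀ p ∈ (prs Y h).image red, ((((prs Y h).filter fun q => red q = p).card : ℝ)) ^ 2 ≤
      ((Y : ℝ) / p.2) * ((h : ℝ) / (p.2 - p.1 : ℕ)) := by
    intro p hp
    obtain ⟨a, b⟩ := fibre_le Y h p hp
    rw [sq]
    exact mul_le_mul a b (by positivity) (by positivity)
  refine (sum_le_sum h1).trans ?_
  have h2 : ∑ p ∈ (prs Y h).image red, ((Y : ℝ) / p.2) * ((h : ℝ) / (p.2 - p.1 : ℕ)) ≤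
      ∑ t ∈ (Icc 1 Y) ×ˢ (Icc 1 Y), ((Y : ℝ) / t.1) * ((h : ℝ) / t.2) := by
    have hinj : Set.InjOn (fun p : ℕ × ℕ => (p.2, p.2 - p.1)) ((prs Y h).image red : Finset _) := by
      intro p hp p' hp' he
      obtain ⟨q, hq, rfl⟩ := mem_image.1 (mem_coe.1 hp)
      obtain ⟨q', hq', rfl⟩ := mem_image.1 (mem_coe.1 hp')
      obtain ⟨a1, a2, -⟩ := red_facts hq
      obtain ⟨b1, b2, -⟩ := red_facts hq'
      simp only [Prod.mk.injEq] at he
      refine Prod.ext ?_ he.1
      omega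
    rw [← sum_image (f := fun t : ℕ × ℕ => ((Y : ℝ) / t.1) * ((h : ℝ) / t.2)) hinj]
    refine sum_le_sum_of_subset_of_nonneg ?_ fun _ _ _ => by positivity
    intro t ht
    obtain ⟨p, hp, rfl⟩ := mem_image.1 ht
    obtain ⟨q, hq, rfl⟩ := mem_image.1 hp
    obtain ⟨a1, a2, a3, -⟩ := red_facts hq
    rw [mem_product, mem_Icc, mem_Icc]
    dsimp only
    omega
  refine h2.trans ?_
  rw [sum_product]
  have h3 : ∑ x ∈ Icc 1 Y, ∑ y ∈ Icc 1 Y, ((Y : ℝ) / x) * ((h : ℝ) / y) =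
      Y * h * ((∑ x ∈ Icc 1 Y, (1 : ℝ) / x) * ∑ y ∈ Icc 1 Y, (1 : ℝ) / y) := by
    rw [sum_mul_sum, mul_sum]
    refine sum_congr rfl fun x _ => ?_
    rw [mul_sum]
    refine sum_congr rfl fun y _ => ?_
    ring
  dsimp only
  rw [h3, sq]
  have h4 := harm Y
  have h5 : 0 ≤ ∑ x ∈ Icc 1 Y, (1 : ℝ) / x := sum_nonneg fun _ _ => by positivity
  exact mul_le_mul_of_nonneg_left (mul_le_mul h4 h4 h5 (h5.trans h4)) (by positivity)

/-- **Pairs of close pairs with the same core.** -/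
theorem count (δ : ℝ) (hδ : 0 < δ) : ∃ C : ℝ, 1 ≤ C ∧ ∀ Y h : ℕ,
    (((prs Y h ×ˢ prs Y h).filter fun t => cr (red t.1) = cr (red t.2)).card : ℝ) ≤
      C * (Y : ℝ) ^ δ * (Y * h * (1 + Real.log Y) ^ 2) := by
  obtain ⟨C, hC, hτ⟩ := tau_sqf (δ / 2) (by positivity)
  refine ⟨C, hC, fun Y h => ?_⟩
  have hK : ∀ p ∈ (prs Y h).image red,
      ((((prs Y h).image red).filter fun p' => cr p' = cr p).card : ℝ) ≤ C * (Y : ℝ) ^ δ := by
    intro p hp
    obtain ⟨q, hq, rfl⟩ := mem_image.1 hp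
    obtain ⟨a1, a2, a3, -⟩ := red_facts hq
    have hsq : Squarefree (cr (red q)) :=
      core_sqf (mem_prs.1 hq).2.2.2.2.1 (mem_prs.1 hq).2.2.2.2.2
    have h1 : (((prs Y h).image red).filter fun p' => cr p' = cr (red q)).card ≤
        (cr (red q)).divisors.card := by
      refine card_le_card_of_injOn (fun p => p.1) ?_ ?_
      · intro p' hp'
        have hp'' := (mem_filter.1 (mem_coe.1 hp')).2
        simp only [mem_coe]
        rw [Nat.mem_divisors]
        exact ⟨hp'' ▸ Dvd.intro _ rfl, hsq.ne_zero⟩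
      · intro p' hp' p'' hp'' he
        obtain ⟨c1, c2⟩ := mem_filter.1 (mem_coe.1 hp')
        obtain ⟨d1, d2⟩ := mem_filter.1 (mem_coe.1 hp'')
        obtain ⟨q', hq', rfl⟩ := mem_image.1 c1
        obtain ⟨b1, b2, b3, -⟩ := red_facts hq'
        simp only at he
        refine Prod.ext he ?_
        have h7 : (red q').1 * (red q').2 = (red q').1 * p''.2 := by
          have : cr (red q') = cr p'' := c2.trans d2.symm
          unfold cr at this
          rw [this, he]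
        exact Nat.eq_of_mul_eq_mul_left (by omega) h7
    calc ((((prs Y h).image red).filter fun p' => cr p' = cr (red q)).card : ℝ)
        ≤ ((cr (red q)).divisors.card : ℝ) := by exact_mod_cast h1
      _ ≤ C * (cr (red q) : ℝ) ^ (δ / 2) := hτ _ hsq
      _ ≤ C * (Y : ℝ) ^ δ := by
          refine mul_le_mul_of_nonneg_left ?_ (by linarith)
          have h2 : (cr (red q) : ℝ) ≤ (Y : ℝ) ^ (2 : ℝ) := by
            have : cr (red q) ≤ Y * Y := Nat.mul_le_mul (by omega) a3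
            calc (cr (red q) : ℝ) ≤ ((Y * Y : ℕ) : ℝ) := by exact_mod_cast this
              _ = (Y : ℝ) ^ (2 : ℝ) := by
                  push_cast
                  rw [show (2 : ℝ) = ((2 : ℕ) : ℝ) by norm_num, Real.rpow_natCast]
                  ring
          calc (cr (red q) : ℝ) ^ (δ / 2) ≤ ((Y : ℝ) ^ (2 : ℝ)) ^ (δ / 2) :=
                Real.rpow_le_rpow (by positivity) h2 (by positivity)
            _ = (Y : ℝ) ^ δ := by
                rw [← Real.rpow_mul (by positivity)]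
                congr 1
                ring
  refine (card_rel (prs Y h) red cr _ hK).trans ?_
  exact mul_le_mul_of_nonneg_left (sum_fibre Y h) (by positivity)

end Pool.Agent.Q163.GC
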