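import Pool.Agent.Q163.GC.Mom

set_option autoImplicit false

/-!
# From a grid of window lengths to all window lengths
-/

namespace Pool.Agent.Q163.GC

open Finset

variable {f : ℕ → ℝ}

lemma W_add (f : ℕ → ℝ) (x h k : ℕ) : W f x (h + k) = W f x h + W f (x + h) k := by
  unfold W
  rw [sum_range_add]
  congr 1
  refine sum_congr rfl fun j _ => ?_
  congr 1
  omega

lemma W_zero (f : ℕ → ℝ) (x : ℕ) : W f x 0 = 0 := by
  unfold W
  simp

/-- shifted sums of squares -/
noncomputable def Bs (f : ℕ → ℝ) (s N h : ℕ) : ℝ := ∑ x ∈ range N, W f (x + s) h ^ 2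

lemma Bs_le (f : ℕ → ℝ) (s N h M : ℕ) (hM : N + s ≤ M) : Bs f s N h ≤ BB f M h := by
  unfold Bs BB
  rw [← sum_image (s := range N) (g := fun x => x + s) (f := fun y => W f y h ^ 2)
    (fun a _ b _ hab => by simpa using hab)]
  refine sum_le_sum_of_subset_of_nonneg ?_ fun _ _ _ => sq_nonneg _
  intro y hy
  obtain ⟨x, hx, rfl⟩ := mem_image.1 hy
  rw [mem_range] at hx ⊢
  omega

lemma BB_mono (f : ℕ → ℝ) {N M : ℕ} (h : ℕ) (hNM : N ≤ M) : BB f N h ≤ BB f M h :=
  sum_le_sum_of_subset_of_nonneg (range_subset_range.2 hNM) fun _ _ _ => sq_nonneg _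

lemma DD_nonneg (f : ℕ → ℝ) (N h : ℕ) : 0 ≤ DD f N h :=
  sum_nonneg fun _ _ => sum_nonneg fun _ _ => sq_nonneg _

lemma DD_mono (f : ℕ → ℝ) {N M : ℕ} (h : ℕ) (hNM : N ≤ M) : DD f N h ≤ DD f M h :=
  sum_le_sum_of_subset_of_nonneg (range_subset_range.2 hNM) fun _ _ _ =>
    sum_nonneg fun _ _ => sq_nonneg _

lemma sq_le_one_of (hf : ∀ n, |f n| ≤ 1) (n : ℕ) : f n ^ 2 ≤ 1 := by
  rw [← sq_abs]
  exact pow_le_one₀ (abs_nonneg _) (hf n)

lemma DD_diff (hf : ∀ n, |f n| ≤ 1) {N M : ℕ} (h : ℕ) (hNM : N ≤ M) :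
    DD f M h ≤ DD f N h + h * ((M : ℝ) - N) := by
  have h1 : DD f M h = DD f N h + ∑ x ∈ Ico N M, ∑ j ∈ range h, f (x + j + 1) ^ 2 := by
    unfold DD
    rw [← sum_range_add_sum_Ico _ hNM]
  rw [h1]
  have h2 : ∑ x ∈ Ico N M, ∑ j ∈ range h, f (x + j + 1) ^ 2 ≤ ∑ x ∈ Ico N M, (h : ℝ) := by
    refine sum_le_sum fun x _ => ?_
    refine (sum_le_sum fun j _ => sq_le_one_of hf _).trans ?_
    rw [sum_const, card_range, nsmul_eq_mul, mul_one]
  rw [sum_const, Nat.card_Ico, nsmul_eq_mul, Nat.cast_sub hNM] at h2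
  linarith

lemma DD_le (hf : ∀ n, |f n| ≤ 1) (N h : ℕ) : DD f N h ≤ h * N := by
  have h1 := DD_diff hf h (Nat.zero_le N)
  have h2 : DD f 0 h = 0 := by
    unfold DD
    simp
  rw [h2] at h1
  simpa using h1

lemma DD_add (hf : ∀ n, |f n| ≤ 1) (N h k : ℕ) :
    DD f N h ≤ DD f N (h + k) ∧ DD f N (h + k) ≤ DD f N h + k * N := by
  unfold DD
  constructor
  · refine sum_le_sum fun x _ => ?_
    exact sum_le_sum_of_subset_of_nonneg (range_subset_range.2 (by omega)) fun _ _ _ => sq_nonneg _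
  · have h1 : ∀ x ∈ range N, ∑ j ∈ range (h + k), f (x + j + 1) ^ 2 ≤
        ∑ j ∈ range h, f (x + j + 1) ^ 2 + k := by
      intro x _
      rw [sum_range_add]
      refine add_le_add_right ?_ _
      refine (sum_le_sum fun j _ => sq_le_one_of hf _).trans ?_
      rw [sum_const, card_range, nsmul_eq_mul, mul_one]
    refine (sum_le_sum h1).trans ?_
    rw [sum_add_distrib, sum_const, card_range, nsmul_eq_mul]
    exact le_of_eq (by ring)

/-- dyadic chaining -/
lemma chain (f : ℕ → ℝ) (N L S : ℕ) (κ : ℝ) (hκ : 0 ≤ κ)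
    (h : ∀ l < L, ∀ s ≤ S, Bs f s N (2 ^ l) ≤ κ * 2 ^ l) :
    ∀ l ≤ L, ∀ k < 2 ^ l, ∀ s, s + 2 ^ l ≤ S → Bs f s N k ≤ 6 * κ * 2 ^ l := by
  intro l
  induction l with
  | zero =>
    intro _ k hk s _
    have : k = 0 := by simpa using hk
    subst this
    have : Bs f s N 0 = 0 := by
      unfold Bs
      simp [W_zero]
    rw [this]
    positivity
  | succ l ih =>
    intro hl k hk s hs
    have h2 : (2 : ℕ) ^ (l + 1) = 2 ^ l + 2 ^ l := by rw [pow_succ]; ring
    have h2' : (2 : ℝ) ^ (l + 1) = 2 * 2 ^ l := by rw [pow_succ]; ring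
    have h3 : (0 : ℝ) < 2 ^ l := by positivity
    rcases lt_or_ge k (2 ^ l) with hk1 | hk1
    · refine (ih (by omega) k hk1 s (by omega)).trans ?_
      rw [h2']
      nlinarith [mul_nonneg hκ h3.le]
    · obtain ⟨k', rfl⟩ := Nat.exists_eq_add_of_le hk1
      have a1 := h l (by omega) s (by omega)
      have a2 := ih (by omega) k' (by omega) (s + 2 ^ l) (by omega)
      have a3 : Bs f s N (2 ^ l + k') ≤ 4 * Bs f s N (2 ^ l) + 4 / 3 * Bs f (s + 2 ^ l) N k' := by
        unfold Bs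
        rw [mul_sum, mul_sum, ← sum_add_distrib]
        refine sum_le_sum fun x _ => ?_
        rw [W_add, ← add_assoc x s (2 ^ l)]
        nlinarith [sq_nonneg (3 * W f (x + s) (2 ^ l) - W f (x + s + 2 ^ l) k')]
      refine a3.trans ?_
      rw [h2']
      nlinarith

/-- the grid hypothesis -/
def Grid (f : ℕ → ℝ) (A j : ℕ) : Prop :=
  ∀ i u : ℕ, 1 ≤ u → u ≤ 2 * j → u * 2 ^ i * j ^ 12 ≤ j ^ A →
    |BB f (j ^ A) (u * 2 ^ i) - DD f (j ^ A) (u * 2 ^ i)| ≤ (u * 2 ^ i : ℕ) * (j : ℝ) ^ A / j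

lemma sq_split (a b t : ℝ) (ht : 0 < t) : |(a + b) ^ 2 - a ^ 2| ≤ t * a ^ 2 + (1 + 1 / t) * b ^ 2 := by
  have h1 : 2 * |a * b| ≤ t * a ^ 2 + 1 / t * b ^ 2 := by
    have h2 : 0 ≤ (t * |a| - |b|) ^ 2 := sq_nonneg _
    have h3 : (t * |a| - |b|) ^ 2 = t * (t * a ^ 2 + 1 / t * b ^ 2 - 2 * |a * b|) := by
      rw [abs_mul]
      have e1 := sq_abs a
      have e2 := sq_abs b
      field_simp
      nlinarith
    rw [h3] at h2
    have h4 := nonneg_of_mul_nonneg_right h2 ht
    linarith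
  have h5 : (a + b) ^ 2 - a ^ 2 = 2 * (a * b) + b ^ 2 := by ring
  rw [h5]
  have h6 : |2 * (a * b) + b ^ 2| ≤ 2 * |a * b| + b ^ 2 := by
    refine (abs_add_le _ _).trans ?_
    rw [abs_mul, abs_of_pos (by norm_num : (0 : ℝ) < 2), abs_of_nonneg (sq_nonneg b)]
  linarith

/-- all window lengths at the points `j ^ A` -/
lemma at_points (hf : ∀ n, |f n| ≤ 1) (A : ℕ) (hA : 13 ≤ A) : ∃ j0 : ℕ, ∀ j : ℕ, j0 ≤ j →
    Grid f A j → Grid f A (j + 1) → ∀ h : ℕ, h * j ^ 13 ≤ j ^ A →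
      |BB f (j ^ A) h - DD f (j ^ A) h| ≤ 60 * (h * (j : ℝ) ^ A) / Real.sqrt j := by
  have hlim : ∀ᶠ j : ℕ in Filter.atTop, ((j + 1 : ℕ) : ℝ) ^ A ≤ 2 * (j : ℝ) ^ A ∧
      ((j + 1 : ℕ) : ℝ) ^ 12 ≤ 2 * (j : ℝ) ^ 12 := by
    have h1 : ∀ B : ℕ, ∀ᶠ j : ℕ in Filter.atTop, ((j + 1 : ℕ) : ℝ) ^ B ≤ 2 * (j : ℝ) ^ B := by
      intro B
      have t1 : Filter.Tendsto (fun j : ℕ => (1 + 1 / (j : ℝ)) ^ B) Filter.atTop (nhds ((1 + 0) ^ B)) :=
        (tendsto_const_nhds.add tendsto_one_div_atTop_nhds_zero_nat).pow B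
      rw [add_zero, one_pow] at t1
      filter_upwards [t1.eventually_le_const (by norm_num : (1 : ℝ) < 2),
        Filter.eventually_ge_atTop 1] with j hj hj1
      have hj0 : (0 : ℝ) < j := by exact_mod_cast hj1
      have : ((j + 1 : ℕ) : ℝ) = j * (1 + 1 / (j : ℝ)) := by
        push_cast
        field_simp
      rw [this, mul_pow]
      nlinarith [pow_pos hj0 B]
    exact (h1 A).and (h1 12)
  obtain ⟨j1, hj1⟩ := Filter.eventually_atTop.1 hlim
  refine ⟨max j1 2, fun j hj hG hG' h hh => ?_⟩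
  obtain ⟨g1, g2⟩ := hj1 j (le_of_max_le_left hj)
  have hj2 : 2 ≤ j := le_of_max_le_right hj
  have hjR : (2 : ℝ) ≤ j := by exact_mod_cast hj2
  have hj0 : (0 : ℝ) < j := by linarith
  have hs1 : 1 ≤ Real.sqrt j := Real.one_le_sqrt.2 (by linarith)
  have hs0 : 0 < Real.sqrt j := by linarith
  have hss : Real.sqrt j * Real.sqrt j = j := Real.mul_self_sqrt hj0.le
  have hsj : Real.sqrt j ≤ j := by nlinarith
  set N : ℝ := (j : ℝ) ^ A with hN
  have hN0 : 0 < N := by positivity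
  have hdiv : ∀ X : ℝ, 0 ≤ X → X / j ≤ X / Real.sqrt j := fun X hX =>
    div_le_div_of_nonneg_left hX hs0 hsj
  rcases Nat.eq_zero_or_pos h with rfl | hpos
  · have e1 : BB f (j ^ A) 0 = 0 := by unfold BB; simp [W_zero]
    have e2 : DD f (j ^ A) 0 = 0 := by unfold DD; simp
    rw [e1, e2]
    simp
  have hhR : (0 : ℝ) < h := by exact_mod_cast hpos
  rcases le_or_gt h (2 * j) with hsmall | hbig
  · have h1 := hG 0 h hpos hsmall (by
      rw [pow_zero, mul_one]
      refine le_trans ?_ hh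
      exact Nat.mul_le_mul_left _ (Nat.pow_le_pow_right (by omega) (by norm_num)))
    rw [pow_zero, mul_one] at h1
    refine h1.trans ((hdiv _ (by positivity)).trans ?_)
    refine div_le_div_of_nonneg_right ?_ hs0.le
    nlinarith [mul_pos hhR hN0]
  · set i := Nat.log 2 (h / j) with hi
    have hq : h / j ≠ 0 := by
      have := (Nat.le_div_iff_mul_le (by omega : 0 < j)).2 hbig.le
      omega
    have p1 : 2 ^ i ≤ h / j := Nat.pow_log_le_self 2 hq
    have p2 : h / j < 2 ^ (i + 1) := Nat.lt_pow_succ_log_self (by norm_num) _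
    have p3 : 2 ^ i * j ≤ h := (Nat.le_div_iff_mul_le (by omega)).1 p1
    have p4 : h < 2 ^ (i + 1) * j := (Nat.div_lt_iff_lt_mul (by omega)).1 p2
    set u := h / 2 ^ i with hu
    set r := h % 2 ^ i with hr
    have hpow : 0 < 2 ^ i := by positivity
    have q1 : u * 2 ^ i + r = h := by
      rw [hu, hr, mul_comm]
      exact Nat.div_add_mod h (2 ^ i)
    have q2 : r < 2 ^ i := Nat.mod_lt _ hpow
    have q3 : j ≤ u := (Nat.le_div_iff_mul_le hpow).2 (by rw [mul_comm]; exact p3)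
    have q4 : u ≤ 2 * j := by
      have : u < 2 * j := (Nat.div_lt_iff_lt_mul hpow).2 (by
        calc h < 2 ^ (i + 1) * j := p4
          _ = 2 * j * 2 ^ i := by rw [pow_succ]; ring)
      exact this.le
    have q5 : u * 2 ^ i ≤ h := by omega
    have hjA : 1 ≤ j ^ 13 := Nat.one_le_pow _ _ (by omega)
    -- the main part
    have m1 := hG i u (by omega) q4 (by
      refine le_trans ?_ hh
      exact Nat.mul_le_mul q5 (Nat.pow_le_pow_right (by omega) (by norm_num)))
    -- the remainder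
    have hsp : j ^ A + 2 * h ≤ (j + 1) ^ A := by
      have b1 : j ^ A + j ^ (A - 1) ≤ (j + 1) ^ A := by
        obtain ⟨A', rfl⟩ : ∃ A', A = A' + 1 := ⟨A - 1, by omega⟩
        rw [Nat.add_sub_cancel, pow_succ, pow_succ]
        calc j ^ A' * j + j ^ A' = j ^ A' * (j + 1) := by ring
          _ ≤ (j + 1) ^ A' * (j + 1) := Nat.mul_le_mul_right _ (Nat.pow_le_pow_left (by omega) _)
      have b2 : 2 * h ≤ j ^ (A - 1) := by
        have b3 : h * j ^ 13 ≤ j ^ (A - 13) * j ^ 13 := by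
          rw [← pow_add]
          calc h * j ^ 13 ≤ j ^ A := hh
            _ = j ^ (A - 13 + 13) := by rw [Nat.sub_add_cancel hA]
        have b4 : h ≤ j ^ (A - 13) := Nat.le_of_mul_le_mul_right b3 (by omega)
        calc 2 * h ≤ j * j ^ (A - 13) := Nat.mul_le_mul hj2 b4
          _ = j ^ (A - 13 + 1) := by rw [pow_succ]; ring
          _ ≤ j ^ (A - 1) := Nat.pow_le_pow_right (by omega) (by omega)
      omega
    have hκ : ∀ l < i, ∀ s ≤ 2 * h, Bs f s (j ^ A) (2 ^ l) ≤ 4 * N * 2 ^ l := by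
      intro l hl s hs
      refine (Bs_le f s (j ^ A) (2 ^ l) ((j + 1) ^ A) (by omega)).trans ?_
      have hl2 : 2 ^ l ≤ h := by
        calc 2 ^ l ≤ 2 ^ i := Nat.pow_le_pow_right (by norm_num) hl.le
          _ ≤ 2 ^ i * j := Nat.le_mul_of_pos_right _ (by omega)
          _ ≤ h := p3
      have c1 := hG' l 1 le_rfl (by omega) (by
        rw [one_mul]
        have c2 : (j + 1) ^ 12 ≤ 2 * j ^ 12 := by exact_mod_cast g2
        calc 2 ^ l * (j + 1) ^ 12 ≤ h * (2 * j ^ 12) := Nat.mul_le_mul hl2 c2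
          _ ≤ h * (j * j ^ 12) := Nat.mul_le_mul_left _ (Nat.mul_le_mul_right _ hj2)
          _ = h * j ^ 13 := by ring
          _ ≤ j ^ A := hh
          _ ≤ (j + 1) ^ A := Nat.pow_le_pow_left (by omega) _)
      rw [one_mul] at c1
      have c3 := DD_le hf ((j + 1) ^ A) (2 ^ l)
      have c4 := (abs_le.1 c1).2
      push_cast at c3 c4 g1
      have c5 : (2 : ℝ) ^ l * ((j : ℝ) + 1) ^ A / ((j : ℝ) + 1) ≤ 2 ^ l * ((j : ℝ) + 1) ^ A :=
        div_le_self (by positivity) (by linarith)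
      have c6 : (2 : ℝ) ^ l * ((j : ℝ) + 1) ^ A ≤ 2 ^ l * (2 * N) :=
        mul_le_mul_of_nonneg_left g1 (by positivity)
      linarith
    have hrem := chain f (j ^ A) i (2 * h) (4 * N) (by positivity) hκ i le_rfl r q2 (u * 2 ^ i)
      (by
        have : 2 ^ i ≤ h := le_trans (Nat.le_mul_of_pos_right _ (by omega)) p3
        omega)
    have hpi : (2 : ℝ) ^ i ≤ h / j := by
      rw [le_div_iff₀ hj0]
      exact_mod_cast p3
    have hrem' : Bs f (u * 2 ^ i) (j ^ A) r ≤ 24 * (h * N) / j := by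
      refine hrem.trans ?_
      calc 6 * (4 * N) * 2 ^ i ≤ 6 * (4 * N) * (h / j) :=
            mul_le_mul_of_nonneg_left hpi (by positivity)
        _ = 24 * (h * N) / j := by ring
    -- comparison
    set v := u * 2 ^ i with hv
    have hvR : (v : ℝ) ≤ h := by exact_mod_cast q5
    have hcomp : |BB f (j ^ A) h - BB f (j ^ A) v| ≤
        1 / Real.sqrt j * BB f (j ^ A) v + (1 + Real.sqrt j) * Bs f v (j ^ A) r := by
      unfold BB Bs
      rw [← sum_sub_distrib, mul_sum, mul_sum, ← sum_add_distrib]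
      refine (abs_sum_le_sum_abs _ _).trans (sum_le_sum fun x _ => ?_)
      rw [← q1, W_add]
      have := sq_split (W f x v) (W f (x + v) r) (1 / Real.sqrt j) (by positivity)
      rw [one_div_one_div] at this
      exact this
    have hBv : BB f (j ^ A) v ≤ 2 * (h * N) := by
      have c1 := (abs_le.1 m1).2
      have c2 := DD_le hf (j ^ A) v
      push_cast at c2
      have c3 : (v : ℝ) * N / j ≤ v * N := div_le_self (by positivity) (by linarith)
      have c4 : (v : ℝ) * N ≤ h * N := mul_le_mul_of_nonneg_right hvR hN0.le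
      linarith
    obtain ⟨d1, d2⟩ := DD_add hf (j ^ A) v r
    rw [q1] at d1 d2
    push_cast at d1 d2
    have hrR : (r : ℝ) ≤ h / j := le_trans (by exact_mod_cast q2.le) hpi
    have d3 : (r : ℝ) * N ≤ h * N / j := by
      calc (r : ℝ) * N ≤ h / j * N := mul_le_mul_of_nonneg_right hrR hN0.le
        _ = h * N / j := by ring
    have hX : 0 < h * N := by positivity
    have k1 : |BB f (j ^ A) v - DD f (j ^ A) v| ≤ h * N / Real.sqrt j := by
      refine m1.trans ((hdiv _ (by positivity)).trans ?_)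
      exact div_le_div_of_nonneg_right (mul_le_mul_of_nonneg_right hvR hN0.le) hs0.le
    have k2 : |DD f (j ^ A) v - DD f (j ^ A) h| ≤ h * N / Real.sqrt j := by
      rw [abs_sub_comm, abs_of_nonneg (by linarith)]
      have := hdiv _ hX.le
      linarith
    have k3 : |BB f (j ^ A) h - BB f (j ^ A) v| ≤ 50 * (h * N) / Real.sqrt j := by
      refine hcomp.trans ?_
      have l1 : 1 / Real.sqrt j * BB f (j ^ A) v ≤ 2 * (h * N) / Real.sqrt j := by
        calc 1 / Real.sqrt j * BB f (j ^ A) v ≤ 1 / Real.sqrt j * (2 * (h * N)) :=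
              mul_le_mul_of_nonneg_left hBv (by positivity)
          _ = 2 * (h * N) / Real.sqrt j := by ring
      have l2 : (1 + Real.sqrt j) * Bs f v (j ^ A) r ≤ 48 * (h * N) / Real.sqrt j := by
        calc (1 + Real.sqrt j) * Bs f v (j ^ A) r ≤ (2 * Real.sqrt j) * (24 * (h * N) / j) :=
              mul_le_mul (by linarith) hrem' (sum_nonneg fun _ _ => sq_nonneg _) (by positivity)
          _ = 48 * (h * N) / Real.sqrt j := by
              rw [eq_div_iff hs0.ne']
              calc 2 * Real.sqrt j * (24 * (h * N) / j) * Real.sqrt j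
                  = (Real.sqrt j * Real.sqrt j) * (48 * (h * N) / j) := by ring
                _ = 48 * (h * N) := by
                    rw [hss, mul_div_cancel₀ _ hj0.ne']
      have l3 : 2 * (h * N) / Real.sqrt j + 48 * (h * N) / Real.sqrt j = 50 * (h * N) / Real.sqrt j := by
        ring
      linarith
    have k4 : |BB f (j ^ A) h - DD f (j ^ A) h| ≤ |BB f (j ^ A) h - BB f (j ^ A) v| +
        |BB f (j ^ A) v - DD f (j ^ A) v| + |DD f (j ^ A) v - DD f (j ^ A) h| := by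
      have e1 : BB f (j ^ A) h - DD f (j ^ A) h = (BB f (j ^ A) h - BB f (j ^ A) v) +
        (BB f (j ^ A) v - DD f (j ^ A) v) + (DD f (j ^ A) v - DD f (j ^ A) h) := by ring
      rw [e1]
      exact abs_add_three _ _ _
    have k5 : 50 * (h * N) / Real.sqrt j + h * N / Real.sqrt j + h * N / Real.sqrt j ≤
        60 * (h * N) / Real.sqrt j := by
      have : 0 < h * N / Real.sqrt j := by positivity
      have e1 : 50 * (h * N) / Real.sqrt j = 50 * (h * N / Real.sqrt j) := by ring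
      have e2 : 60 * (h * N) / Real.sqrt j = 60 * (h * N / Real.sqrt j) := by ring
      rw [e1, e2]
      linarith
    linarith

end Pool.Agent.Q163.GC
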