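import Pool.Agent.Q163.GC.Det

set_option autoImplicit false

/-!
# From the points `j ^ A` to all `N`; almost sure statement
-/

namespace Pool.Agent.Q163.GC

open Finset Filter

variable {f : ℕ → ℝ}

lemma pow_step (j A : ℕ) : (j + 1) ^ (A + 1) ≤ j ^ (A + 1) + (A + 1) * (j + 1) ^ A := by
  induction A with
  | zero => simp
  | succ A ih =>
    calc (j + 1) ^ (A + 1 + 1) = (j + 1) ^ (A + 1) * j + (j + 1) ^ (A + 1) := by ring
      _ ≤ (j ^ (A + 1) + (A + 1) * (j + 1) ^ A) * j + (j + 1) ^ (A + 1) :=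
          Nat.add_le_add_right (Nat.mul_le_mul_right _ ih) _
      _ = j ^ (A + 1 + 1) + (A + 1) * ((j + 1) ^ A * j) + (j + 1) ^ (A + 1) := by ring
      _ ≤ j ^ (A + 1 + 1) + (A + 1) * (j + 1) ^ (A + 1) + (j + 1) ^ (A + 1) := by
          refine Nat.add_le_add_right (Nat.add_le_add_left (Nat.mul_le_mul_left _ ?_) _) _
          rw [pow_succ]
          exact Nat.mul_le_mul_left _ (by omega)
      _ = j ^ (A + 1 + 1) + (A + 1 + 1) * (j + 1) ^ (A + 1) := by ring

lemma exists_root (A N : ℕ) (hA : 1 ≤ A) (hN : 1 ≤ N) : ∃ j : ℕ, 1 ≤ j ∧ j ^ A ≤ N ∧ N < (j + 1) ^ A := by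
  set j := Nat.findGreatest (fun z => z ^ A ≤ N) N with hj
  have h1 : j ^ A ≤ N := by
    have := Nat.findGreatest_spec (P := fun z => z ^ A ≤ N) (Nat.zero_le N) (by
      show 0 ^ A ≤ N
      rw [zero_pow (by omega)]
      omega)
    exact this
  have h2 : 1 ≤ j := Nat.le_findGreatest hN (by
    show 1 ^ A ≤ N
    rw [one_pow]
    exact hN)
  refine ⟨j, h2, h1, ?_⟩
  by_contra hc
  have hc' : (j + 1) ^ A ≤ N := not_lt.1 hc
  have h3 : j + 1 ≤ N := le_trans (Nat.le_self_pow (by omega) _) hc'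
  have h4 : j + 1 ≤ j := Nat.le_findGreatest h3 hc'
  omega

/-- all `N` and all window lengths -/
theorem interp (hf : ∀ n, |f n| ≤ 1) (A : ℕ) (hA : 13 ≤ A) (hG : ∀ᶠ j in atTop, Grid f A j) :
    ∃ C : ℝ, 0 ≤ C ∧ ∀ N h : ℕ, 1 ≤ N → (h : ℝ) * (N : ℝ) ^ ((15 : ℝ) / A) ≤ N →
      |BB f N h - DD f N h| ≤ C * (h * N) * (N : ℝ) ^ (-(1 / (2 * (A : ℝ)))) := by
  obtain ⟨j0, hj0⟩ := at_points hf A hA
  obtain ⟨j1, hj1⟩ := eventually_atTop.1 hG
  have h1 : ∀ B : ℕ, ∀ᶠ j : ℕ in atTop, (j + 1) ^ B ≤ 2 * j ^ B := by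
    intro B
    have t1 : Tendsto (fun j : ℕ => (1 + 1 / (j : ℝ)) ^ B) atTop (nhds ((1 + 0) ^ B)) :=
      (tendsto_const_nhds.add tendsto_one_div_atTop_nhds_zero_nat).pow B
    rw [add_zero, one_pow] at t1
    filter_upwards [t1.eventually_le_const (by norm_num : (1 : ℝ) < 2),
      eventually_ge_atTop 1] with j hj hj1
    have hj0 : (0 : ℝ) < j := by exact_mod_cast hj1
    have : ((j + 1 : ℕ) : ℝ) = j * (1 + 1 / (j : ℝ)) := by
      push_cast
      field_simp
    have h2 : ((j + 1 : ℕ) : ℝ) ^ B ≤ 2 * (j : ℝ) ^ B := by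
      rw [this, mul_pow]
      nlinarith [pow_pos hj0 B]
    exact_mod_cast h2
  obtain ⟨j2, hj2⟩ := eventually_atTop.1 ((h1 A).and (h1 13))
  set J := max (max j0 j1) (max j2 2) with hJ
  have hA0 : (0 : ℝ) < A := by
    have : 0 < A := by omega
    exact_mod_cast this
  set N0 : ℕ := (J + 1) ^ A with hN0
  have hN01 : 1 ≤ N0 := Nat.one_le_pow _ _ (by omega)
  refine ⟨4 * A + 240 + (N0 : ℝ) * (2 * N0), by positivity, fun N h hN hh => ?_⟩
  have hNR : (1 : ℝ) ≤ N := by exact_mod_cast hN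
  have hN0' : (0 : ℝ) < N := by linarith
  obtain ⟨j, hj1', hjA, hjA'⟩ := exists_root A N (by omega) hN
  have hhN : (h : ℝ) ≤ N := by
    have : (1 : ℝ) ≤ (N : ℝ) ^ ((15 : ℝ) / A) := Real.one_le_rpow hNR (by positivity)
    nlinarith [Nat.cast_nonneg (α := ℝ) h]
  rcases lt_or_ge j J with hlt | hge
  · -- small N
    have hNN0 : N ≤ N0 := by
      refine hjA'.le.trans (Nat.pow_le_pow_left (by omega) _)
    have hNN0' : (N : ℝ) ≤ N0 := by exact_mod_cast hNN0
    have hD := DD_le hf N h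
    have hD0 := DD_nonneg f N h
    have hB0 : 0 ≤ BB f N h := sum_nonneg fun _ _ => sq_nonneg _
    have hB : BB f N h ≤ (h * N) * h := by
      unfold BB
      refine (sum_le_sum fun x _ => ?_).trans (le_of_eq (by
        rw [sum_const, card_range, nsmul_eq_mul]; ring :
          ∑ _x ∈ range N, (h : ℝ) ^ 2 = (h * N) * h))
      rw [← sq_abs]
      exact pow_le_pow_left₀ (abs_nonneg _) (abs_W_le _ hf x h) 2
    have h2 : |BB f N h - DD f N h| ≤ (h * N) * (2 * N0) := by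
      have h3 : (1 : ℝ) ≤ N0 := by exact_mod_cast hN01
      have h4 : (0 : ℝ) ≤ h * N := by positivity
      rw [abs_le]
      constructor
      · nlinarith
      · nlinarith
    have h5 : (1 : ℝ) ≤ N0 * (N : ℝ) ^ (-(1 / (2 * (A : ℝ)))) := by
      rw [Real.rpow_neg hN0'.le]
      have h6 : (N : ℝ) ^ (1 / (2 * (A : ℝ))) ≤ N := by
        calc (N : ℝ) ^ (1 / (2 * (A : ℝ))) ≤ (N : ℝ) ^ (1 : ℝ) := by
              refine Real.rpow_le_rpow_of_exponent_le hNR ?_
              rw [div_le_one (by positivity)]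
              have : (13 : ℝ) ≤ A := by exact_mod_cast hA
              linarith
          _ = N := Real.rpow_one _
      rw [← div_eq_mul_inv, one_le_div (by positivity)]
      linarith
    calc |BB f N h - DD f N h| ≤ (h * N) * (2 * N0) := h2
      _ = (h * N) * (2 * N0) * 1 := (mul_one _).symm
      _ ≤ (h * N) * (2 * N0) * (N0 * (N : ℝ) ^ (-(1 / (2 * (A : ℝ))))) :=
          mul_le_mul_of_nonneg_left h5 (by positivity)
      _ = (N0 * (2 * N0)) * (h * N) * (N : ℝ) ^ (-(1 / (2 * (A : ℝ)))) := by ring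
      _ ≤ (4 * A + 240 + (N0 : ℝ) * (2 * N0)) * (h * N) * (N : ℝ) ^ (-(1 / (2 * (A : ℝ)))) := by
          refine mul_le_mul_of_nonneg_right (mul_le_mul_of_nonneg_right ?_ (by positivity))
            (by positivity)
          linarith
  · have e0 : j0 ≤ j := le_trans (le_trans (le_max_left _ _) (le_max_left _ _)) hge
    have e1 : j1 ≤ j := le_trans (le_trans (le_max_right _ _) (le_max_left _ _)) hge
    have e2 : j2 ≤ j := le_trans (le_trans (le_max_left _ _) (le_max_right _ _)) hge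
    have e3 : 2 ≤ j := le_trans (le_trans (le_max_right _ _) (le_max_right _ _)) hge
    obtain ⟨g1, g2⟩ := hj2 j e2
    have hjR : (2 : ℝ) ≤ j := by exact_mod_cast e3
    have hjp : (0 : ℝ) < j := by linarith
    have hroot : (j : ℝ) ≤ (N : ℝ) ^ (1 / (A : ℝ)) := by
      have : ((j : ℝ) ^ (A : ℝ)) ^ (1 / (A : ℝ)) ≤ (N : ℝ) ^ (1 / (A : ℝ)) := by
        refine Real.rpow_le_rpow (by positivity) ?_ (by positivity)
        rw [Real.rpow_natCast]
        exact_mod_cast hjA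
      rwa [← Real.rpow_mul hjp.le, mul_one_div_cancel hA0.ne', Real.rpow_one] at this
    have hroot2 : (N : ℝ) ^ (1 / (A : ℝ)) ≤ 2 * j := by
      have h3 : (N : ℝ) ≤ (2 * (j : ℝ)) ^ (A : ℝ) := by
        rw [Real.rpow_natCast]
        have h4 : N ≤ (2 * j) ^ A := hjA'.le.trans (Nat.pow_le_pow_left (by omega) _)
        exact_mod_cast h4
      calc (N : ℝ) ^ (1 / (A : ℝ)) ≤ ((2 * (j : ℝ)) ^ (A : ℝ)) ^ (1 / (A : ℝ)) :=
            Real.rpow_le_rpow hN0'.le h3 (by positivity)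
        _ = 2 * j := by
            rw [← Real.rpow_mul (by positivity), mul_one_div_cancel hA0.ne', Real.rpow_one]
    have hh15 : h * j ^ 15 ≤ N := by
      have h4 : (j : ℝ) ^ 15 ≤ (N : ℝ) ^ ((15 : ℝ) / A) := by
        calc (j : ℝ) ^ 15 ≤ ((N : ℝ) ^ (1 / (A : ℝ))) ^ 15 := pow_le_pow_left₀ hjp.le hroot 15
          _ = (N : ℝ) ^ ((15 : ℝ) / A) := by
              rw [← Real.rpow_natCast, ← Real.rpow_mul hN0'.le]
              congr 1
              push_cast
              ring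
      have h5 : (h : ℝ) * (j : ℝ) ^ 15 ≤ N :=
        (mul_le_mul_of_nonneg_left h4 (Nat.cast_nonneg _)).trans hh
      exact_mod_cast h5
    have hh14 : h * j ^ 14 ≤ j ^ A := by
      have h6 : h * j ^ 14 * 2 ≤ j ^ A * 2 := by
        calc h * j ^ 14 * 2 ≤ h * j ^ 14 * j := Nat.mul_le_mul_left _ e3
          _ = h * j ^ 15 := by ring
          _ ≤ N := hh15
          _ ≤ (j + 1) ^ A := hjA'.le
          _ ≤ 2 * j ^ A := g1
          _ = j ^ A * 2 := mul_comm _ _
      exact Nat.le_of_mul_le_mul_right h6 (by norm_num)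
    have c1 : h * j ^ 13 ≤ j ^ A :=
      le_trans (Nat.mul_le_mul_left _ (Nat.pow_le_pow_right (by omega) (by norm_num))) hh14
    have c2 : h * (j + 1) ^ 13 ≤ (j + 1) ^ A := by
      calc h * (j + 1) ^ 13 ≤ h * (2 * j ^ 13) := Nat.mul_le_mul_left _ g2
        _ ≤ h * (j * j ^ 13) := Nat.mul_le_mul_left _ (Nat.mul_le_mul_right _ e3)
        _ = h * j ^ 14 := by ring
        _ ≤ j ^ A := hh14
        _ ≤ (j + 1) ^ A := Nat.pow_le_pow_left (by omega) _
    have b1 := hj0 j e0 (hj1 j e1) (hj1 (j + 1) (by omega)) h c1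
    have b2 := hj0 (j + 1) (by omega) (hj1 (j + 1) (by omega)) (hj1 (j + 1 + 1) (by omega)) h c2
    set X : ℝ := (h : ℝ) * (j : ℝ) ^ A with hX
    have hX0 : 0 ≤ X := by positivity
    have hsj0 : 0 < Real.sqrt j := Real.sqrt_pos.2 hjp
    have b2' : |BB f ((j + 1) ^ A) h - DD f ((j + 1) ^ A) h| ≤ 120 * X / Real.sqrt j := by
      refine b2.trans ?_
      have h6 : (((j + 1 : ℕ) : ℝ)) ^ A ≤ 2 * (j : ℝ) ^ A := by exact_mod_cast g1
      have h7 : Real.sqrt j ≤ Real.sqrt ((j + 1 : ℕ) : ℝ) := Real.sqrt_le_sqrt (by push_cast; linarith)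
      calc 60 * (h * ((j + 1 : ℕ) : ℝ) ^ A) / Real.sqrt ((j + 1 : ℕ) : ℝ)
          ≤ 60 * (h * (2 * (j : ℝ) ^ A)) / Real.sqrt j := by
            refine div_le_div₀ (by positivity) ?_ hsj0 h7
            exact mul_le_mul_of_nonneg_left (mul_le_mul_of_nonneg_left h6 (by positivity))
              (by norm_num)
        _ = 120 * X / Real.sqrt j := by rw [hX]; ring
    have hgap : (h : ℝ) * ((((j + 1) ^ A : ℕ) : ℝ) - ((j ^ A : ℕ) : ℝ)) ≤ 2 * A * X / Real.sqrt j := by
      obtain ⟨A', rfl⟩ : ∃ A', A = A' + 1 := ⟨A - 1, by omega⟩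
      have h6 : (((j + 1) ^ (A' + 1) : ℕ) : ℝ) ≤ ((j ^ (A' + 1) : ℕ) : ℝ) +
          ((A' : ℝ) + 1) * ((j : ℝ) + 1) ^ A' := by
        exact_mod_cast pow_step j A'
      have h7 : ((j : ℝ) + 1) ^ A' ≤ 2 * (j : ℝ) ^ (A' + 1) / Real.sqrt j := by
        rw [le_div_iff₀ hsj0]
        have h8 : ((j : ℝ) + 1) ^ (A' + 1) ≤ 2 * (j : ℝ) ^ (A' + 1) := by exact_mod_cast g1
        have h9 : Real.sqrt j ≤ (j : ℝ) + 1 := by
          have : Real.sqrt j ≤ j := by
            rw [Real.sqrt_le_left hjp.le]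
            nlinarith
          linarith
        calc ((j : ℝ) + 1) ^ A' * Real.sqrt j ≤ ((j : ℝ) + 1) ^ A' * ((j : ℝ) + 1) :=
              mul_le_mul_of_nonneg_left h9 (by positivity)
          _ = ((j : ℝ) + 1) ^ (A' + 1) := (pow_succ _ _).symm
          _ ≤ 2 * (j : ℝ) ^ (A' + 1) := h8
      calc (h : ℝ) * ((((j + 1) ^ (A' + 1) : ℕ) : ℝ) - ((j ^ (A' + 1) : ℕ) : ℝ))
          ≤ h * (((A' : ℝ) + 1) * (2 * (j : ℝ) ^ (A' + 1) / Real.sqrt j)) := by
            refine mul_le_mul_of_nonneg_left ?_ (by positivity)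
            have := mul_le_mul_of_nonneg_left h7 (by positivity : (0 : ℝ) ≤ (A' : ℝ) + 1)
            linarith
        _ = 2 * ((A' + 1 : ℕ) : ℝ) * X / Real.sqrt j := by
            rw [hX]
            push_cast
            ring
    have hmB1 := BB_mono f h hjA
    have hmB2 := BB_mono f h hjA'.le
    have hmD1 := DD_mono f h hjA
    have hmD2 := DD_mono f h hjA'.le
    have hdD := DD_diff hf h (le_trans hjA hjA'.le)
    have hfin : |BB f N h - DD f N h| ≤ (2 * A + 120) * (X / Real.sqrt j) := by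
      obtain ⟨b1a, b1b⟩ := abs_le.1 b1
      obtain ⟨b2a, b2b⟩ := abs_le.1 b2'
      have r1 : 60 * X / Real.sqrt j = 60 * (X / Real.sqrt j) := by ring
      have r2 : 120 * X / Real.sqrt j = 120 * (X / Real.sqrt j) := by ring
      have r3 : 2 * A * X / Real.sqrt j = 2 * A * (X / Real.sqrt j) := by ring
      have r4 : 0 ≤ X / Real.sqrt j := by positivity
      rw [r1] at b1a b1b
      rw [r2] at b2a b2b
      rw [r3] at hgap
      rw [abs_le]
      constructor
      · linarith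
      · linarith
    refine hfin.trans ?_
    have hXN : X ≤ h * N := mul_le_mul_of_nonneg_left (by exact_mod_cast hjA) (by positivity)
    have hsq : 1 / Real.sqrt j ≤ 2 * (N : ℝ) ^ (-(1 / (2 * (A : ℝ)))) := by
      rw [Real.rpow_neg hN0'.le, ← div_eq_mul_inv, div_le_div_iff₀ hsj0 (by positivity), one_mul]
      have h6 : (N : ℝ) ^ (1 / (2 * (A : ℝ))) = Real.sqrt ((N : ℝ) ^ (1 / (A : ℝ))) := by
        rw [Real.sqrt_eq_rpow, ← Real.rpow_mul hN0'.le]
        congr 1
        field_simp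
      rw [h6]
      calc Real.sqrt ((N : ℝ) ^ (1 / (A : ℝ))) ≤ Real.sqrt (4 * j) :=
            Real.sqrt_le_sqrt (by linarith)
        _ = 2 * Real.sqrt j := by
            rw [Real.sqrt_mul (by norm_num), show (4 : ℝ) = 2 ^ 2 by norm_num,
              Real.sqrt_sq (by norm_num)]
    calc (2 * A + 120) * (X / Real.sqrt j) = (2 * A + 120) * (X * (1 / Real.sqrt j)) := by ring
      _ ≤ (2 * A + 120) * ((h * N) * (2 * (N : ℝ) ^ (-(1 / (2 * (A : ℝ)))))) :=
          mul_le_mul_of_nonneg_left (mul_le_mul hXN hsq (by positivity) (by positivity))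
            (by positivity)
      _ = (4 * A + 240) * (h * N) * (N : ℝ) ^ (-(1 / (2 * (A : ℝ)))) := by ring
      _ ≤ (4 * A + 240 + (N0 : ℝ) * (2 * N0)) * (h * N) * (N : ℝ) ^ (-(1 / (2 * (A : ℝ)))) := by
          refine mul_le_mul_of_nonneg_right (mul_le_mul_of_nonneg_right ?_ (by positivity))
            (by positivity)
          have : (0 : ℝ) ≤ (N0 : ℝ) * (2 * N0) := by positivity
          linarith

end Pool.Agent.Q163.GC
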